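import Pool.Agent.N782.GN.StmT

/-!
# GN/MT2, part 1: divisors of rational primes, contents, decomposition of sums
-/

set_option autoImplicit false

namespace Pool.Agent.N521.GN

open Finset
open Pool.Agent.N782.GN
open Pool.Agent.H304R3.HK (UH bb LamK)

/-! ### norms -/

theorem nz_mul (a b : ZI) : nz (a * b) = nz a * nz b := by
  unfold nz
  rw [Zsqrtd.norm_mul]
  push_cast
  ring

/-- the norm as a natural number -/
def nn (z : ZI) : ℕ := (Zsqrtd.norm z).natAbs

theorem nn_cast (z : ZI) : ((nn z : ℕ) : ℤ) = Zsqrtd.norm z := by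
  unfold nn
  exact Int.natAbs_of_nonneg (GaussianInt.norm_nonneg z)

theorem nn_real (z : ZI) : ((nn z : ℕ) : ℝ) = nz z := by
  unfold nz
  rw [← nn_cast]
  simp

theorem nn_mul (a b : ZI) : nn (a * b) = nn a * nn b := by
  unfold nn
  rw [Zsqrtd.norm_mul, Int.natAbs_mul]

theorem nn_pos {z : ZI} (hz : z ≠ 0) : 1 ≤ nn z := by
  have h1 : Zsqrtd.norm z ≠ 0 := fun h => hz (GaussianInt.norm_eq_zero.1 h)
  have := nn_cast z
  unfold nn at *
  omega

theorem nz_pos {z : ZI} (hz : z ≠ 0) : 1 ≤ nz z := by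
  rw [← nn_real]
  exact_mod_cast nn_pos hz

theorem mul_star_self (z : ZI) : z * star z = ((Zsqrtd.norm z : ℤ) : ZI) :=
  (Zsqrtd.norm_eq_mul_conj z).symm

theorem nn_star (z : ZI) : nn (star z) = nn z := by
  unfold nn
  rw [Zsqrtd.norm_conj]

theorem nn_P (p : ℕ) : nn ((p : ℕ) : ZI) = p * p := by
  unfold nn
  rw [Zsqrtd.norm_natCast]
  rw [← Nat.cast_mul, Int.natAbs_natCast]

theorem isUnit_iff (z : ZI) : IsUnit z ↔ nn z = 1 := by
  unfold nn
  exact Zsqrtd.norm_eq_one_iff.symm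

/-- the units -/
def UU : Finset ZI := {1, -1, ⟨0, 1⟩, ⟨0, -1⟩}

theorem card_UU : UU.card = 4 := by decide

theorem mem_UU (z : ZI) : z ∈ UU ↔ IsUnit z := by
  constructor
  · intro h
    rw [isUnit_iff]
    simp only [UU, mem_insert, mem_singleton] at h
    rcases h with rfl | rfl | rfl | rfl <;> decide
  · intro h
    rw [isUnit_iff] at h
    have h1 : Zsqrtd.norm z = 1 := by
      rw [← nn_cast, h]; rfl
    rw [Zsqrtd.norm_def] at h1
    have h2 : z.re * z.re ≤ 1 := by nlinarith [mul_self_nonneg z.im]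
    have h3 : z.im * z.im ≤ 1 := by nlinarith [mul_self_nonneg z.re]
    have h4 : -1 ≤ z.re ∧ z.re ≤ 1 := by constructor <;> nlinarith
    have h5 : -1 ≤ z.im ∧ z.im ≤ 1 := by constructor <;> nlinarith
    obtain ⟨a, b⟩ := z
    simp only at h1 h4 h5
    simp only [UU, mem_insert, mem_singleton]
    have ha : a = -1 ∨ a = 0 ∨ a = 1 := by omega
    have hb : b = -1 ∨ b = 0 ∨ b = 1 := by omega
    rcases ha with rfl | rfl | rfl <;> rcases hb with rfl | rfl | rfl <;>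
      first | (exfalso; revert h1; decide) | decide

theorem unit_mul_star {u : ZI} (hu : IsUnit u) : u * star u = 1 := by
  rw [mul_star_self, ← nn_cast, (isUnit_iff u).1 hu]
  simp

theorem unit_star {u : ZI} (hu : IsUnit u) : IsUnit (star u) := by
  rw [isUnit_iff, nn_star]
  exact (isUnit_iff u).1 hu

/-! ### contents -/

theorem dvd_ct (d : ℕ) (z : ZI) : d ∣ ct z ↔ ((d : ℕ) : ZI) ∣ z := by
  unfold ct
  have h1 : ((d : ℕ) : ZI) = (((d : ℕ) : ℤ) : ZI) := by push_cast; rfl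
  rw [h1, Zsqrtd.intCast_dvd]
  constructor
  · intro h
    have h2 : ((d : ℕ) : ℤ) ∣ ((Int.gcd z.re z.im : ℕ) : ℤ) := by exact_mod_cast h
    exact ⟨h2.trans (Int.gcd_dvd_left ..), h2.trans (Int.gcd_dvd_right ..)⟩
  · rintro ⟨h2, h3⟩
    have := Int.dvd_coe_gcd h2 h3
    exact_mod_cast this

theorem ct_dvd (z : ZI) : ((ct z : ℕ) : ZI) ∣ z := (dvd_ct _ _).1 dvd_rfl

theorem ct_pos {z : ZI} (hz : z ≠ 0) : 1 ≤ ct z := by
  rcases Nat.eq_zero_or_pos (ct z) with h | h
  · exfalso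
    have := ct_dvd z
    rw [h, Nat.cast_zero, zero_dvd_iff] at this
    exact hz this
  · exact h

theorem ct_sq_dvd (z : ZI) : ct z * ct z ∣ nn z := by
  obtain ⟨w, hw⟩ := ct_dvd z
  have h1 : nn z = ct z * ct z * nn w := by
    conv_lhs => rw [hw]
    rw [nn_mul, nn_P]
  exact ⟨nn w, h1⟩

theorem ct_dvd_nn (z : ZI) : ct z ∣ nn z := (dvd_mul_right _ _).trans (ct_sq_dvd z)

theorem ct_le (z : ZI) (hz : z ≠ 0) : (ct z : ℝ) ≤ nz z := by
  rw [← nn_real]
  exact_mod_cast Nat.le_of_dvd (nn_pos hz) (ct_dvd_nn z)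

theorem ct_star (z : ZI) : ct (star z) = ct z := by
  unfold ct
  simp [Int.gcd]

theorem ct_natmul (n : ℕ) (z : ZI) : ct (((n : ℕ) : ZI) * z) = n * ct z := by
  unfold ct
  have h1 : (((n : ℕ) : ZI) * z).re = (n : ℤ) * z.re := by simp
  have h2 : (((n : ℕ) : ZI) * z).im = (n : ℤ) * z.im := by simp
  rw [h1, h2, Int.gcd_mul_left]
  simp

theorem ct_mul {a b : ZI} (h : Nat.Coprime (nn a) (nn b)) : ct (a * b) = ct a * ct b := by
  apply Nat.dvd_antisymm
  · -- the content divides `N(a) ct b` and `N(b) ct a`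
    have h1 : ct (a * b) ∣ nn a * ct b := by
      rw [← ct_natmul, dvd_ct]
      refine (ct_dvd (a * b)).trans ?_
      have e : ((nn a : ℕ) : ZI) * b = star a * (a * b) := by
        have : ((nn a : ℕ) : ZI) = a * star a := by
          rw [mul_star_self, ← nn_cast]
          push_cast
          rfl
        rw [this]; ring
      rw [e]
      exact dvd_mul_left _ _
    have h2 : ct (a * b) ∣ nn b * ct a := by
      rw [← ct_natmul, dvd_ct]
      refine (ct_dvd (a * b)).trans ?_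
      have e : ((nn b : ℕ) : ZI) * a = star b * (a * b) := by
        have : ((nn b : ℕ) : ZI) = b * star b := by
          rw [mul_star_self, ← nn_cast]
          push_cast
          rfl
        rw [this]; ring
      rw [e]
      exact dvd_mul_left _ _
    obtain ⟨a', ha'⟩ := ct_dvd_nn a
    obtain ⟨b', hb'⟩ := ct_dvd_nn b
    have h3 : Nat.Coprime a' b' :=
      Nat.Coprime.coprime_dvd_left ⟨ct a, by rw [ha']; ring⟩
        (Nat.Coprime.coprime_dvd_right ⟨ct b, by rw [hb']; ring⟩ h)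
    have h4 : ct (a * b) ∣ Nat.gcd (nn a * ct b) (nn b * ct a) := Nat.dvd_gcd h1 h2
    have h5 : Nat.gcd (nn a * ct b) (nn b * ct a) = ct a * ct b := by
      have e1 : nn a * ct b = (ct a * ct b) * a' := by rw [ha']; ring
      have e2 : nn b * ct a = (ct a * ct b) * b' := by rw [hb']; ring
      rw [e1, e2, Nat.gcd_mul_left, Nat.Coprime.gcd_eq_one h3, mul_one]
    rwa [h5] at h4
  · rw [dvd_ct]
    push_cast
    exact mul_dvd_mul (ct_dvd a) (ct_dvd b)

theorem kap_mul {a b : ZI} (h : Nat.Coprime (nn a) (nn b)) (l : ℤ) :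
    kap l (a * b) = kap l a * kap l b := by
  have hc : Nat.Coprime (ct a) (ct b) :=
    Nat.Coprime.coprime_dvd_left (ct_dvd_nn a) (Nat.Coprime.coprime_dvd_right (ct_dvd_nn b) h)
  unfold kap
  rw [ct_mul h]
  have hiff : (((ct a * ct b : ℕ) : ℤ) ∣ l) ↔ (((ct a : ℕ) : ℤ) ∣ l ∧ ((ct b : ℕ) : ℤ) ∣ l) := by
    constructor
    · intro h1
      push_cast at h1
      exact ⟨(dvd_mul_right _ _).trans h1, (dvd_mul_left _ _).trans h1⟩
    · rintro ⟨h1, h2⟩
      push_cast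
      exact (Nat.isCoprime_iff_coprime.2 hc).mul_dvd h1 h2
  by_cases h1 : ((ct a : ℕ) : ℤ) ∣ l
  · by_cases h2 : ((ct b : ℕ) : ℤ) ∣ l
    · rw [if_pos (hiff.2 ⟨h1, h2⟩), if_pos h1, if_pos h2]
      push_cast
      ring
    · rw [if_neg (fun h3 => h2 (hiff.1 h3).2), if_neg h2, mul_zero]
  · rw [if_neg (fun h3 => h1 (hiff.1 h3).1), if_neg h1, zero_mul]

theorem kap_nonneg (l : ℤ) (a : ZI) : 0 ≤ kap l a := by
  unfold kap
  split_ifs
  · positivity
  · exact le_rfl

theorem kap_le (l : ℤ) {a : ZI} (ha : a ≠ 0) : kap l a ≤ nz a := by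
  unfold kap
  split_ifs
  · exact ct_le a ha
  · exact nz_nonneg a

/-! ### numbers coprime to a rational prime -/

theorem co_norm {p : ℕ} (hp : p.Prime) {b : ZI} (hb : IsCoprime b ((p : ℕ) : ZI)) :
    Nat.Coprime p (nn b) := by
  rw [hp.coprime_iff_not_dvd]
  intro h
  have h1 : ((p : ℕ) : ZI) ∣ b * star b := by
    rw [mul_star_self, ← nn_cast]
    obtain ⟨c, hc⟩ := h
    exact ⟨((c : ℕ) : ZI), by rw [hc]; push_cast; rfl⟩
  have h2 : ((p : ℕ) : ZI) ∣ star b := hb.symm.dvd_of_dvd_mul_left h1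
  have h3 : ((p : ℕ) : ZI) ∣ b := by
    obtain ⟨c, hc⟩ := h2
    refine ⟨star c, ?_⟩
    have := congrArg star hc
    rw [star_star, star_mul'] at this
    rw [this]
    congr 1
  have h4 : IsUnit ((p : ℕ) : ZI) := hb.isUnit_of_dvd' h3 dvd_rfl
  rw [isUnit_iff, nn_P] at h4
  have := hp.two_le
  nlinarith

/-- coprimality of the norms for a number composed of primes over `p` -/
theorem cop_of_pow {p : ℕ} (hp : p.Prime) {a b : ZI} {k : ℕ} (ha : nn a ∣ p ^ k)
    (hb : IsCoprime b ((p : ℕ) : ZI)) : Nat.Coprime (nn a) (nn b) :=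
  Nat.Coprime.coprime_dvd_left ha (Nat.Coprime.pow_left k (co_norm hp hb))

/-! ### the decomposition -/

open Classical in
/-- the divisors of a rational prime -/
noncomputable def Dp (p : ℕ) : Finset ZI := (bl ((p : ℝ) * p)).filter (fun g => g ∣ ((p : ℕ) : ZI))

theorem P_ne {p : ℕ} (hp : p.Prime) : ((p : ℕ) : ZI) ≠ 0 := by
  intro h
  have := nn_P p
  rw [h] at this
  have h2 := hp.two_le
  have h3 : nn (0 : ZI) = 0 := by decide
  rw [h3] at this
  nlinarith

theorem mem_Dp {p : ℕ} (hp : p.Prime) (g : ZI) : g ∈ Dp p ↔ g ∣ ((p : ℕ) : ZI) := by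
  classical
  unfold Dp
  rw [mem_filter, and_iff_right_iff_imp, mem_bl]
  intro hg
  have h0 : g ≠ 0 := by
    rintro rfl
    exact P_ne hp (zero_dvd_iff.1 hg)
  refine ⟨h0, ?_⟩
  obtain ⟨c, hc⟩ := hg
  have h1 : nn g ≤ p * p := by
    rw [← nn_P p, hc, nn_mul]
    have hc0 : c ≠ 0 := by
      rintro rfl
      exact P_ne hp (by rw [hc, mul_zero])
    exact Nat.le_mul_of_pos_right _ (nn_pos hc0)
  rw [← nn_real]
  exact_mod_cast h1

theorem Dp_ne {p : ℕ} (hp : p.Prime) {g : ZI} (hg : g ∈ Dp p) : g ≠ 0 := by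
  rintro rfl
  exact P_ne hp (zero_dvd_iff.1 ((mem_Dp hp _).1 hg))

theorem Dp_nn {p : ℕ} (hp : p.Prime) {g : ZI} (hg : g ∈ Dp p) : nn g ∣ p ^ 2 := by
  obtain ⟨c, hc⟩ := (mem_Dp hp _).1 hg
  have := nn_P p
  rw [hc, nn_mul] at this
  exact ⟨nn c, by rw [sq]; exact this.symm⟩

open Classical in
/-- sums over numbers coprime to `p` -/
noncomputable def co (p : ℕ) (X : ℝ) : Finset ZI :=
  (bl X).filter (fun b => IsCoprime b ((p : ℕ) : ZI))

theorem mem_co (p : ℕ) (X : ℝ) (b : ZI) :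
    b ∈ co p X ↔ (b ≠ 0 ∧ nz b ≤ X) ∧ IsCoprime b ((p : ℕ) : ZI) := by
  classical
  unfold co
  rw [mem_filter, mem_bl]

theorem exists_dec {p : ℕ} (hp : p.Prime) {z : ZI} (hs : Squarefree z) :
    ∃ g b : ZI, g ∣ ((p : ℕ) : ZI) ∧ IsCoprime b ((p : ℕ) : ZI) ∧ g * b = z := by
  obtain ⟨b, hb⟩ := EuclideanDomain.gcd_dvd_left z ((p : ℕ) : ZI)
  refine ⟨EuclideanDomain.gcd z ((p : ℕ) : ZI), b, EuclideanDomain.gcd_dvd_right _ _, ?_, hb.symm⟩
  have hP := P_ne hp
  refine isCoprime_of_prime_dvd (fun h => hP h.2) fun q hq hqb hqP => ?_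
  have h1 : q ∣ EuclideanDomain.gcd z ((p : ℕ) : ZI) :=
    EuclideanDomain.dvd_gcd (hqb.trans ⟨_, by rw [mul_comm]; exact hb⟩) hqP
  have h2 : q * q ∣ z := by
    rw [hb]
    exact mul_dvd_mul h1 hqb
  exact hq.not_isUnit (hs q h2)

theorem dec_assoc {p : ℕ} {g b g' b' : ZI} (hg : g ∣ ((p : ℕ) : ZI))
    (hb' : IsCoprime b' ((p : ℕ) : ZI)) (h : g * b = g' * b') : g ∣ g' := by
  have h1 : IsCoprime g b' := (hb'.of_isCoprime_of_dvd_right hg).symm
  exact h1.dvd_of_dvd_mul_right ⟨b, h.symm⟩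

open Classical in
/-- pairs of a divisor of `p` and a number coprime to `p` -/
noncomputable def TT (p : ℕ) (y : ℝ) : Finset (ZI × ZI) :=
  ((Dp p) ×ˢ (bl y)).filter
    (fun q : ZI × ZI => IsCoprime q.2 ((p : ℕ) : ZI) ∧ nz q.1 * nz q.2 ≤ y)

theorem mem_TT {p : ℕ} (hp : p.Prime) (y : ℝ) (q : ZI × ZI) :
    q ∈ TT p y ↔ (q.1 ∣ ((p : ℕ) : ZI) ∧ q.2 ≠ 0 ∧ nz q.2 ≤ y) ∧
      IsCoprime q.2 ((p : ℕ) : ZI) ∧ nz q.1 * nz q.2 ≤ y := by
  classical
  unfold TT
  rw [mem_filter, mem_product, mem_Dp hp, mem_bl]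

open Classical in
theorem fiber_card {p : ℕ} (hp : p.Prime) {y : ℝ} {z : ZI} (hz : z ∈ bl y) (hs : Squarefree z) :
    ((TT p y).filter (fun q => q.1 * q.2 = z)).card = 4 := by
  obtain ⟨g₀, b₀, hg₀, hb₀, hgb⟩ := exists_dec hp hs
  rw [mem_bl] at hz
  have hg0 : g₀ ≠ 0 := by
    rintro rfl
    exact hz.1 (by rw [← hgb, zero_mul])
  have hb0 : b₀ ≠ 0 := by
    rintro rfl
    exact hz.1 (by rw [← hgb, mul_zero])
  have hset : (TT p y).filter (fun q => q.1 * q.2 = z) =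
      UU.image (fun u => (u * g₀, star u * b₀)) := by
    ext ⟨g, b⟩
    rw [mem_filter, mem_TT hp, mem_image]
    constructor
    · rintro ⟨⟨⟨hg, hb, -⟩, hc, -⟩, hz'⟩
      simp only at hg hb hc hz'
      have h1 : g₀ ∣ g := dec_assoc (b := b₀) (b' := b) hg₀ hc (by rw [hgb, hz'])
      have h2 : g ∣ g₀ := dec_assoc (b := b) (b' := b₀) hg hb₀ (by rw [hgb, hz'])
      obtain ⟨u, hu⟩ := associated_of_dvd_dvd h1 h2
      refine ⟨u, (mem_UU _).2 u.isUnit, ?_⟩
      have e1 : (u : ZI) * g₀ = g := by rw [mul_comm]; exact hu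
      have e2 : star (u : ZI) * b₀ = b := by
        apply mul_left_cancel₀ hg0
        have h3 := unit_mul_star u.isUnit
        calc g₀ * (star (u : ZI) * b₀) = star (u : ZI) * z := by rw [← hgb]; ring
          _ = star (u : ZI) * (g * b) := by rw [hz']
          _ = star (u : ZI) * ((u : ZI) * g₀ * b) := by rw [e1]
          _ = ((u : ZI) * star (u : ZI)) * (g₀ * b) := by ring
          _ = _ := by rw [h3, one_mul]
      rw [e1, e2]
    · rintro ⟨u, hu, hq⟩
      rw [mem_UU] at hu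
      rw [Prod.mk.injEq] at hq
      obtain ⟨rfl, rfl⟩ := hq
      have hsu := unit_star hu
      have h3 := unit_mul_star hu
      have hprod : u * g₀ * (star u * b₀) = z := by
        calc u * g₀ * (star u * b₀) = (u * star u) * (g₀ * b₀) := by ring
          _ = z := by rw [h3, hgb, one_mul]
      have hne : star u * b₀ ≠ 0 := mul_ne_zero hsu.ne_zero hb0
      have hne' : u * g₀ ≠ 0 := mul_ne_zero hu.ne_zero hg0
      have hy : nz (u * g₀) * nz (star u * b₀) ≤ y := by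
        rw [← nz_mul, hprod]
        exact hz.2
      refine ⟨⟨⟨(hu.mul_left_dvd).2 hg₀, hne, ?_⟩, ?_, hy⟩, hprod⟩
      · have h5 := nz_pos hne'
        have h6 := nz_nonneg (star u * b₀)
        nlinarith
      · exact (isCoprime_mul_unit_left_left hsu _ _).2 hb₀
  rw [hset, card_image_of_injOn, card_UU]
  intro u _ v _ huv
  simp only [Prod.mk.injEq] at huv
  exact mul_right_cancel₀ hg0 huv.1

theorem dec (hm : S_MUB) {p : ℕ} (hp : p.Prime) (φ : ZI → ℝ) (y : ℝ) :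
    ∑ z ∈ bl y, mu z * φ z =
      1 / 4 * ∑ g ∈ Dp p, mu g * ∑ b ∈ co p (y / nz g), mu b * φ (g * b) := by
  classical
  have hA : ∑ g ∈ Dp p, mu g * ∑ b ∈ co p (y / nz g), mu b * φ (g * b) =
      ∑ q ∈ TT p y, mu (q.1 * q.2) * φ (q.1 * q.2) := by
    unfold TT
    rw [sum_filter, sum_product]
    refine sum_congr rfl fun g hg => ?_
    rw [← sum_filter, mul_sum]
    have hg0 := Dp_ne hp hg
    have hg1 := nz_pos hg0
    have hset : co p (y / nz g) =
        (bl y).filter (fun b => IsCoprime b ((p : ℕ) : ZI) ∧ nz g * nz b ≤ y) := by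
      ext b
      rw [mem_co, mem_filter, mem_bl, le_div_iff₀ (by linarith)]
      have h6 := nz_nonneg b
      constructor
      · rintro ⟨⟨h1, h2⟩, h3⟩
        exact ⟨⟨h1, by nlinarith⟩, h3, by linarith⟩
      · rintro ⟨⟨h1, h2⟩, h3, h4⟩
        exact ⟨⟨h1, by linarith⟩, h3⟩
    rw [hset]
    refine sum_congr rfl fun b hb => ?_
    rw [mem_filter] at hb
    have hco : IsCoprime g b := (hb.2.1.of_isCoprime_of_dvd_right ((mem_Dp hp g).1 hg)).symm
    rw [hm.1 g b hco]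
    ring
  rw [hA]
  have hmaps : ∀ q ∈ TT p y, q.1 * q.2 ∈ bl y := by
    intro q hq
    rw [mem_TT hp] at hq
    rw [mem_bl, nz_mul]
    refine ⟨mul_ne_zero ?_ hq.1.2.1, hq.2.2⟩
    intro h
    have := hq.1.1
    rw [h] at this
    exact P_ne hp (zero_dvd_iff.1 this)
  rw [← sum_fiberwise_of_maps_to hmaps, mul_sum]
  refine sum_congr rfl fun z hz => ?_
  have h1 : ∑ q ∈ (TT p y).filter (fun q => q.1 * q.2 = z), mu (q.1 * q.2) * φ (q.1 * q.2) =
      ((TT p y).filter (fun q => q.1 * q.2 = z)).card * (mu z * φ z) := by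
    rw [← nsmul_eq_mul, ← sum_const]
    refine sum_congr rfl fun q hq => ?_
    rw [(mem_filter.1 hq).2]
  rw [h1]
  by_cases hs : Squarefree z
  · rw [fiber_card hp hz hs]
    push_cast
    ring
  · have : mu z = 0 := by
      unfold mu
      rw [if_neg hs]
    rw [this]
    ring

end Pool.Agent.N521.GN
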