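import Pool.Agent.N521.GN.Mt2a

/-!
# GN/MT2, part 2: averages of the sums over numbers coprime to a prime
-/

set_option autoImplicit false

namespace Pool.Agent.N521.GN

open Finset
open Pool.Agent.N782.GN
open Pool.Agent.H304R3.HK (UH bb LamK)

/-- sums of the densities -/
noncomputable def FF (l : ℤ) (x : ℝ) : ℝ := ∑ b ∈ bl x, mu b * (kap l b / nz b)

/-- the same over numbers coprime to `p` -/
noncomputable def Fc (p : ℕ) (l : ℤ) (x : ℝ) : ℝ := ∑ b ∈ co p x, mu b * (kap l b / nz b)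

theorem nn_pow (a : ZI) (k : ℕ) : nn (a ^ k) = nn a ^ k := by
  induction k with
  | zero => rw [pow_zero, pow_zero]; decide
  | succ k ih => rw [pow_succ, nn_mul, ih, pow_succ]

theorem mu_one : mu (1 : ZI) = 1 := by
  unfold mu
  rw [if_pos squarefree_one, UniqueFactorizationMonoid.factors_one, Multiset.card_zero, pow_zero]

theorem dec_kap (hm : S_MUB) {p : ℕ} (hp : p.Prime) {a : ZI} {k : ℕ} (ha : nn a ∣ p ^ k) (l : ℤ)
    (x : ℝ) : ∑ b ∈ bl x, mu b * (kap l (b * a) / nz (b * a)) =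
      1 / 4 * ∑ g ∈ Dp p, mu g * (kap l (g * a) / nz (g * a)) * Fc p l (x / nz g) := by
  rw [dec hm hp (fun b => kap l (b * a) / nz (b * a)) x]
  congr 1
  refine sum_congr rfl fun g hg => ?_
  rw [mul_assoc]
  congr 1
  unfold Fc
  rw [mul_sum]
  refine sum_congr rfl fun b hb => ?_
  rw [mem_co] at hb
  have h1 : nn (g * a) ∣ p ^ (2 + k) := by
    rw [nn_mul, pow_add]
    exact mul_dvd_mul (Dp_nn hp hg) ha
  have h2 : g * b * a = (g * a) * b := by ring
  rw [h2, kap_mul (cop_of_pow hp h1 hb.2), nz_mul, mul_div_mul_comm]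
  ring

/-- the nontrivial divisors of `p` -/
noncomputable def Dn (p : ℕ) : Finset ZI := by
  classical exact (Dp p).filter (fun g => ¬ IsUnit g)

theorem mem_Dn {p : ℕ} (g : ZI) : g ∈ Dn p ↔ g ∈ Dp p ∧ ¬ IsUnit g := by
  classical
  unfold Dn
  rw [mem_filter]

theorem sum_Dp {p : ℕ} (hp : p.Prime) (ψ : ZI → ℝ) :
    ∑ g ∈ Dp p, ψ g = ∑ g ∈ UU, ψ g + ∑ g ∈ Dn p, ψ g := by
  classical
  rw [← sum_filter_add_sum_filter_not (Dp p) (fun g => IsUnit g)]
  congr 1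
  · refine sum_congr ?_ fun _ _ => rfl
    ext g
    rw [mem_filter, mem_UU, mem_Dp hp]
    exact ⟨fun h => h.2, fun h => ⟨h.dvd, h⟩⟩

theorem nz_unit {u : ZI} (hu : IsUnit u) : nz u = 1 := by
  rw [← nn_real, (isUnit_iff u).1 hu, Nat.cast_one]

theorem ct_unit {u : ZI} (hu : IsUnit u) : ct u = 1 := by
  have h1 := ct_dvd_nn u
  rw [(isUnit_iff u).1 hu] at h1
  exact Nat.dvd_one.1 h1

theorem kap_unit {u : ZI} (hu : IsUnit u) (l : ℤ) : kap l u = 1 := by
  unfold kap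
  rw [ct_unit hu, if_pos (by simp)]
  simp

theorem rec_bound (hm : S_MUB) {p : ℕ} (hp : p.Prime) (l : ℤ) (x : ℝ) :
    |Fc p l x| ≤ |FF l x| + 1 / 4 * ∑ g ∈ Dn p, kap l g / nz g * |Fc p l (x / nz g)| := by
  have h1 := dec_kap hm hp (a := 1) (k := 0)
    (by rw [show nn 1 = 1 by decide]; exact one_dvd _) l x
  simp only [mul_one] at h1
  rw [sum_Dp hp] at h1
  have h2 : ∑ g ∈ UU, mu g * (kap l g / nz g) * Fc p l (x / nz g) = 4 * Fc p l x := by
    have : ∀ g ∈ UU, mu g * (kap l g / nz g) * Fc p l (x / nz g) = Fc p l x := by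
      intro g hg
      rw [mem_UU] at hg
      have h3 : mu g = 1 := by
        have := hm.2.2.1 g 1 hg
        rwa [mul_one, mu_one] at this
      rw [h3, kap_unit hg, nz_unit hg]
      simp
    rw [sum_congr rfl this, sum_const, card_UU]
    simp
  rw [h2] at h1
  have h3 : Fc p l x = FF l x -
      1 / 4 * ∑ g ∈ Dn p, mu g * (kap l g / nz g) * Fc p l (x / nz g) := by
    unfold FF
    rw [h1]
    ring
  rw [h3]
  refine (abs_sub _ _).trans ?_
  gcongr
  rw [abs_mul, abs_of_pos (by norm_num : (0:ℝ) < 1 / 4)]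
  gcongr
  refine (abs_sum_le_sum_abs _ _).trans (sum_le_sum fun g hg => ?_)
  rw [abs_mul, abs_mul]
  have h4 : |kap l g / nz g| = kap l g / nz g :=
    abs_of_nonneg (div_nonneg (kap_nonneg _ _) (nz_nonneg _))
  rw [h4]
  have h5 : 0 ≤ kap l g / nz g := div_nonneg (kap_nonneg _ _) (nz_nonneg _)
  calc |mu g| * (kap l g / nz g) * |Fc p l (x / nz g)|
      ≤ 1 * (kap l g / nz g) * |Fc p l (x / nz g)| := by
        gcongr
        exact abs_mu_le g
    _ = _ := by ring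

theorem Fc_scale {p : ℕ} (hp : p.Prime) {a : ZI} {k : ℕ} (hk : nn a ∣ p ^ k) (l : ℤ) (X : ℝ) :
    Fc p ((ct a : ℕ) * l) X = Fc p l X := by
  unfold Fc
  refine sum_congr rfl fun b hb => ?_
  rw [mem_co] at hb
  have h1 : Nat.Coprime (ct a) (ct b) :=
    Nat.Coprime.coprime_dvd_left (ct_dvd_nn a)
      (Nat.Coprime.coprime_dvd_right (ct_dvd_nn b) (cop_of_pow hp hk hb.2))
  have h2 : IsCoprime ((ct b : ℕ) : ℤ) ((ct a : ℕ) : ℤ) := Nat.isCoprime_iff_coprime.2 h1.symm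
  have h3 : (((ct b : ℕ) : ℤ) ∣ (ct a : ℕ) * l) ↔ ((ct b : ℕ) : ℤ) ∣ l :=
    ⟨fun h => h2.dvd_of_dvd_mul_left h, fun h => h.trans (dvd_mul_left _ _)⟩
  unfold kap
  simp only [h3]

theorem scale {p : ℕ} (hp : p.Prime) {a : ZI} (ha : a ≠ 0) {k : ℕ} (hk : nn a ∣ p ^ k) {X K : ℝ}
    (h : ∀ L : ℝ, 0 ≤ L → ∑ l ∈ Icc (1 : ℤ) ⌊L⌋, |Fc p l X| ≤ K * L) (L : ℝ)
    (hL : 0 ≤ L) : ∑ l ∈ Icc (1 : ℤ) ⌊L⌋, kap l a * |Fc p l X| ≤ K * L := by
  have hd : 1 ≤ ct a := ct_pos ha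
  have hd0 : (0:ℝ) < ct a := by exact_mod_cast hd
  have h1 : ∑ l ∈ Icc (1 : ℤ) ⌊L⌋, kap l a * |Fc p l X| =
      ∑ l ∈ (Icc (1 : ℤ) ⌊L⌋).filter (fun l => ((ct a : ℕ) : ℤ) ∣ l), (ct a : ℝ) * |Fc p l X| := by
    rw [sum_filter]
    refine sum_congr rfl fun l _ => ?_
    unfold kap
    split_ifs <;> simp
  rw [h1]
  have hinj : Set.InjOn (fun l : ℤ => ((ct a : ℕ) : ℤ) * l) (Icc (1 : ℤ) ⌊L / ct a⌋ : Finset ℤ) := by
    intro u _ v _ huv
    exact mul_left_cancel₀ (by exact_mod_cast (show ct a ≠ 0 by omega)) huv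
  have h2 : (Icc (1 : ℤ) ⌊L⌋).filter (fun l => ((ct a : ℕ) : ℤ) ∣ l) ⊆
      (Icc (1 : ℤ) ⌊L / ct a⌋).image (fun l : ℤ => ((ct a : ℕ) : ℤ) * l) := by
    intro l hl
    rw [mem_filter, mem_Icc] at hl
    obtain ⟨⟨h3, h4⟩, m, rfl⟩ := hl
    rw [mem_image]
    refine ⟨m, ?_, rfl⟩
    have hda : (0:ℤ) < (ct a : ℕ) := by exact_mod_cast hd
    rw [mem_Icc]
    constructor
    · by_contra hc
      push Not at hc
      have : m ≤ 0 := by omega
      nlinarith
    · rw [Int.le_floor, le_div_iff₀ hd0]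
      have h5 := Int.le_floor.1 h4
      push_cast at h5
      linarith
  calc _ ≤ ∑ l ∈ (Icc (1 : ℤ) ⌊L / ct a⌋).image (fun l : ℤ => ((ct a : ℕ) : ℤ) * l),
        (ct a : ℝ) * |Fc p l X| :=
        sum_le_sum_of_subset_of_nonneg h2 fun _ _ _ => by positivity
    _ = ∑ l ∈ Icc (1 : ℤ) ⌊L / ct a⌋, (ct a : ℝ) * |Fc p l X| := by
        rw [sum_image hinj]
        refine sum_congr rfl fun l _ => ?_
        rw [Fc_scale hp hk]
    _ = (ct a : ℝ) * ∑ l ∈ Icc (1 : ℤ) ⌊L / ct a⌋, |Fc p l X| := by rw [mul_sum]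
    _ ≤ (ct a : ℝ) * (K * (L / ct a)) :=
        mul_le_mul_of_nonneg_left (h _ (by positivity)) hd0.le
    _ = K * L := by field_simp

/-! ### the weight -/

/-- the weight `1 / (log (x + B))^A` with `log B = 20 (A + 1)` -/
noncomputable def om (A : ℕ) (x : ℝ) : ℝ := 1 / (Real.log (x + Real.exp (20 * (A + 1)))) ^ A

theorem logB {A : ℕ} {x : ℝ} (hx : 0 ≤ x) :
    20 * ((A : ℝ) + 1) ≤ Real.log (x + Real.exp (20 * (A + 1))) := by
  have h1 : Real.log (Real.exp (20 * ((A : ℝ) + 1))) ≤ Real.log (x + Real.exp (20 * (A + 1))) :=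
    Real.log_le_log (Real.exp_pos _) (by linarith)
  rwa [Real.log_exp] at h1

theorem om_pos {A : ℕ} {x : ℝ} (hx : 0 ≤ x) : 0 < om A x := by
  unfold om
  have := logB (A := A) hx
  have h2 : 0 < Real.log (x + Real.exp (20 * (A + 1))) := by
    have : (0:ℝ) ≤ A := by positivity
    linarith
  positivity

theorem om_ratio {A : ℕ} {x N : ℝ} (hx : 0 ≤ x) (hN : 1 ≤ N) :
    om A (x / N) ≤ N ^ (1 / 20 : ℝ) * om A x := by
  have hA : (0:ℝ) ≤ A := by positivity
  have hxN : 0 ≤ x / N := by positivity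
  have hu := logB (A := A) hxN
  have hv := logB (A := A) hx
  obtain ⟨u, hud⟩ : ∃ u, u = Real.log (x / N + Real.exp (20 * (A + 1))) := ⟨_, rfl⟩
  obtain ⟨v, hvd⟩ : ∃ v, v = Real.log (x + Real.exp (20 * (A + 1))) := ⟨_, rfl⟩
  unfold om
  rw [← hud] at hu ⊢
  rw [← hvd] at hv ⊢
  have hu0 : 0 < u := by linarith
  have hv0 : 0 < v := by linarith
  have hlN : 0 ≤ Real.log N := Real.log_nonneg hN
  have h1 : v ≤ u + Real.log N := by
    rw [hvd, hud, add_comm _ (Real.log N), ← Real.log_mul (by linarith) (by positivity)]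
    apply Real.log_le_log (by positivity)
    have h0 : N * (x / N) = x := by field_simp
    have := Real.exp_pos (20 * ((A:ℝ) + 1))
    nlinarith
  have h2 : v ^ A ≤ N ^ (1 / 20 : ℝ) * u ^ A := by
    have h3 : v ≤ u * Real.exp (Real.log N / u) := by
      have := Real.add_one_le_exp (Real.log N / u)
      calc v ≤ u + Real.log N := h1
        _ = u * (Real.log N / u + 1) := by field_simp; ring
        _ ≤ _ := mul_le_mul_of_nonneg_left this hu0.le
    calc v ^ A ≤ (u * Real.exp (Real.log N / u)) ^ A := pow_le_pow_left₀ hv0.le h3 A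
      _ = Real.exp (A * (Real.log N / u)) * u ^ A := by
          rw [mul_pow, ← Real.exp_nat_mul]; ring
      _ ≤ _ := by
          refine mul_le_mul_of_nonneg_right ?_ (by positivity)
          rw [Real.rpow_def_of_pos (by linarith)]
          apply Real.exp_le_exp.2
          rw [mul_div_assoc', div_le_iff₀ hu0]
          nlinarith
  rw [mul_one_div, div_le_div_iff₀ (by positivity) (by positivity), one_mul]
  exact h2

end Pool.Agent.N521.GN
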