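import Pool.Agent.N521.GN.Mt2b

/-!
# GN/MT2, part 3: the local sums
-/

set_option autoImplicit false

namespace Pool.Agent.N521.GN

open Finset
open Pool.Agent.N782.GN
open Pool.Agent.H304R3.HK (UH bb LamK)

theorem nn_star_eq (z : ZI) : z * star z = ((nn z : ℕ) : ZI) := by
  rw [mul_star_self, ← nn_cast]
  push_cast
  rfl

/-- elements of norm `p` -/
noncomputable def E1 (p : ℕ) : Finset ZI := by
  classical exact (Dp p).filter (fun g => nn g = p)

/-- elements of norm `p²` -/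
noncomputable def E2 (p : ℕ) : Finset ZI := by
  classical exact (Dp p).filter (fun g => nn g = p * p)

theorem card_E2 {p : ℕ} (hp : p.Prime) : (E2 p).card ≤ 4 := by
  classical
  have hsub : E2 p ⊆ UU.image (fun u => u * ((p : ℕ) : ZI)) := by
    intro g hg
    unfold E2 at hg
    rw [mem_filter, mem_Dp hp] at hg
    obtain ⟨⟨c, hc⟩, hn⟩ := hg
    have h1 : nn c = 1 := by
      have h2 := nn_P p
      rw [hc, nn_mul, hn] at h2
      have h3 : 0 < p * p := Nat.mul_pos hp.pos hp.pos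
      have h4 : p * p * nn c = p * p * 1 := by rw [h2, mul_one]
      exact Nat.eq_of_mul_eq_mul_left h3 h4
    have hcu : IsUnit c := (isUnit_iff c).2 h1
    rw [mem_image]
    refine ⟨star c, (mem_UU _).2 (unit_star hcu), ?_⟩
    have h5 := unit_mul_star hcu
    show star c * ((p : ℕ) : ZI) = g
    rw [hc]
    calc star c * (g * c) = g * (c * star c) := by ring
      _ = g := by rw [h5, mul_one]
  exact (card_le_card hsub).trans (card_image_le.trans card_UU.le)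

theorem card_E1 {p : ℕ} (hp : p.Prime) : (E1 p).card ≤ 8 := by
  classical
  rcases (E1 p).eq_empty_or_nonempty with h | ⟨g₀, hg₀⟩
  · rw [h]; simp
  have hg₀' : nn g₀ = p := by
    unfold E1 at hg₀
    exact (mem_filter.1 hg₀).2
  have hprime : Prime g₀ := by
    refine Irreducible.prime ⟨?_, ?_⟩
    · intro h
      rw [isUnit_iff, hg₀'] at h
      exact hp.one_lt.ne' h
    · intro a b hab
      have h1 : nn a * nn b = p := by rw [← nn_mul, ← hab, hg₀']
      rw [isUnit_iff, isUnit_iff]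
      rcases (Nat.dvd_prime hp).1 ⟨nn b, h1.symm⟩ with h2 | h2
      · exact Or.inl h2
      · right
        rw [h2] at h1
        exact Nat.eq_of_mul_eq_mul_left hp.pos (by rw [h1, mul_one])
  have hsub : E1 p ⊆ UU.image (fun u => u * g₀) ∪ UU.image (fun u => u * star g₀) := by
    intro g hg
    unfold E1 at hg
    rw [mem_filter] at hg
    have hgn := hg.2
    have h1 : g₀ ∣ g * star g := by
      rw [nn_star_eq, hgn, ← hg₀', ← nn_star_eq]
      exact dvd_mul_right _ _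
    rw [mem_union, mem_image, mem_image]
    rcases hprime.dvd_or_dvd h1 with ⟨c, hc⟩ | ⟨c, hc⟩
    · left
      have h2 : nn c = 1 := by
        have h3 : nn g = nn g₀ * nn c := by rw [hc, nn_mul]
        rw [hgn, hg₀'] at h3
        exact Nat.eq_of_mul_eq_mul_left hp.pos (by rw [← h3, mul_one])
      exact ⟨c, (mem_UU _).2 ((isUnit_iff c).2 h2), by rw [hc]; ring⟩
    · right
      have h2 : nn c = 1 := by
        have h3 : nn (star g) = nn g₀ * nn c := by rw [hc, nn_mul]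
        rw [nn_star, hgn, hg₀'] at h3
        exact Nat.eq_of_mul_eq_mul_left hp.pos (by rw [← h3, mul_one])
      refine ⟨star c, (mem_UU _).2 (unit_star ((isUnit_iff c).2 h2)), ?_⟩
      have := congrArg star hc
      rw [star_star, star_mul'] at this
      rw [this]
      ring
  refine (card_le_card hsub).trans ((card_union_le _ _).trans ?_)
  have h1 : (UU.image (fun u => u * g₀)).card ≤ 4 := card_image_le.trans card_UU.le
  have h2 : (UU.image (fun u => u * star g₀)).card ≤ 4 := card_image_le.trans card_UU.le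
  omega

theorem card_E1_two : (E1 2).card ≤ 4 := by
  classical
  have hsub : E1 2 ⊆ ({⟨1, 1⟩, ⟨1, -1⟩, ⟨-1, 1⟩, ⟨-1, -1⟩} : Finset ZI) := by
    intro g hg
    unfold E1 at hg
    have h := (mem_filter.1 hg).2
    have h1 : Zsqrtd.norm g = 2 := by
      rw [← nn_cast, h]; rfl
    rw [Zsqrtd.norm_def] at h1
    obtain ⟨a, b⟩ := g
    simp only at h1
    have h2 : a * a ≤ 2 := by nlinarith [mul_self_nonneg b]
    have h3 : b * b ≤ 2 := by nlinarith [mul_self_nonneg a]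
    have h4 : -1 ≤ a ∧ a ≤ 1 := by constructor <;> nlinarith
    have h5 : -1 ≤ b ∧ b ≤ 1 := by constructor <;> nlinarith
    have ha : a = -1 ∨ a = 0 ∨ a = 1 := by omega
    have hb : b = -1 ∨ b = 0 ∨ b = 1 := by omega
    rcases ha with rfl | rfl | rfl <;> rcases hb with rfl | rfl | rfl <;>
      first | (exfalso; revert h1; decide) | decide
  refine (card_le_card hsub).trans ?_
  decide

theorem rp_le {N r : ℝ} (hN : 0 < N) (hr : 0 < r) (h : 1 ≤ r ^ 20 * N ^ 19) :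
    N ^ (-(19 / 20) : ℝ) ≤ r := by
  have h1 : N ^ (-(19 / 20) : ℝ) = (N ^ 19)⁻¹ ^ (1 / 20 : ℝ) := by
    rw [← Real.rpow_natCast, ← Real.rpow_neg hN.le, ← Real.rpow_mul hN.le]
    norm_num
  have h2 : r = (r ^ 20) ^ (1 / 20 : ℝ) := by
    rw [← Real.rpow_natCast, ← Real.rpow_mul hr.le]
    norm_num
  rw [h1, h2]
  apply Real.rpow_le_rpow (by positivity) _ (by norm_num)
  rw [inv_le_iff_one_le_mul₀ (by positivity)]
  exact h

theorem sum_Dn_le {p : ℕ} (hp : p.Prime) :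
    1 / 4 * ∑ g ∈ Dn p, nz g ^ (-(19 / 20) : ℝ) ≤ 9 / 10 := by
  classical
  have hsub : Dn p ⊆ E1 p ∪ E2 p := by
    intro g hg
    rw [mem_Dn] at hg
    unfold E1 E2
    rw [mem_union, mem_filter, mem_filter]
    have h1 := Dp_nn hp hg.1
    rw [isUnit_iff] at hg
    obtain ⟨i, hi, h2⟩ := (Nat.dvd_prime_pow hp).1 h1
    have h3 : i = 0 ∨ i = 1 ∨ i = 2 := by omega
    rcases h3 with rfl | rfl | rfl
    · exact absurd (by rw [h2, pow_zero]) hg.2
    · left; exact ⟨hg.1, by rw [h2, pow_one]⟩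
    · right; exact ⟨hg.1, by rw [h2, sq]⟩
  have h1 : ∑ g ∈ Dn p, nz g ^ (-(19 / 20) : ℝ) ≤
      ∑ g ∈ E1 p, nz g ^ (-(19 / 20) : ℝ) + ∑ g ∈ E2 p, nz g ^ (-(19 / 20) : ℝ) := by
    have h2 : ∑ g ∈ Dn p, nz g ^ (-(19 / 20) : ℝ) ≤ ∑ g ∈ E1 p ∪ E2 p, nz g ^ (-(19 / 20) : ℝ) :=
      sum_le_sum_of_subset_of_nonneg hsub fun g _ _ => Real.rpow_nonneg (nz_nonneg g) _
    refine h2.trans ?_
    have h3 := sum_union_inter (s₁ := E1 p) (s₂ := E2 p)
      (f := fun g => nz g ^ (-(19 / 20) : ℝ))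
    have h4 : 0 ≤ ∑ g ∈ E1 p ∩ E2 p, nz g ^ (-(19 / 20) : ℝ) :=
      sum_nonneg fun g _ => Real.rpow_nonneg (nz_nonneg g) _
    linarith
  have e1 : ∑ g ∈ E1 p, nz g ^ (-(19 / 20) : ℝ) = (E1 p).card * (p : ℝ) ^ (-(19 / 20) : ℝ) := by
    rw [← nsmul_eq_mul, ← sum_const]
    refine sum_congr rfl fun g hg => ?_
    unfold E1 at hg
    rw [← nn_real, (mem_filter.1 hg).2]
  have e2 : ∑ g ∈ E2 p, nz g ^ (-(19 / 20) : ℝ) =
      (E2 p).card * ((p : ℝ) * p) ^ (-(19 / 20) : ℝ) := by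
    rw [← nsmul_eq_mul, ← sum_const]
    refine sum_congr rfl fun g hg => ?_
    unfold E2 at hg
    rw [← nn_real, (mem_filter.1 hg).2]
    push_cast
    rfl
  rw [e1, e2] at h1
  have hc2 : ((E2 p).card : ℝ) ≤ 4 := by exact_mod_cast card_E2 hp
  have hp0 : (0:ℝ) < p := by exact_mod_cast hp.pos
  rcases hp.two_le.lt_or_eq with h3 | h3
  · have hp3 : (3:ℝ) ≤ p := by exact_mod_cast h3
    have hc1 : ((E1 p).card : ℝ) ≤ 8 := by exact_mod_cast card_E1 hp
    have h4 : (p : ℝ) ^ (-(19 / 20) : ℝ) ≤ 9 / 25 :=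
      (Real.rpow_le_rpow_of_nonpos (by norm_num) hp3 (by norm_num)).trans
        (rp_le (by norm_num) (by norm_num) (by norm_num))
    have h5 : ((p : ℝ) * p) ^ (-(19 / 20) : ℝ) ≤ 1 / 8 :=
      (Real.rpow_le_rpow_of_nonpos (by norm_num : (0:ℝ) < 9) (by nlinarith) (by norm_num)).trans
        (rp_le (by norm_num) (by norm_num) (by norm_num))
    have h6 : ((E1 p).card : ℝ) * (p : ℝ) ^ (-(19 / 20) : ℝ) ≤ 8 * (9 / 25) :=
      mul_le_mul hc1 h4 (Real.rpow_nonneg hp0.le _) (by norm_num)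
    have h7 : ((E2 p).card : ℝ) * ((p : ℝ) * p) ^ (-(19 / 20) : ℝ) ≤ 4 * (1 / 8) :=
      mul_le_mul hc2 h5 (Real.rpow_nonneg (by positivity) _) (by norm_num)
    linarith
  · subst h3
    have hc1 : ((E1 2).card : ℝ) ≤ 4 := by exact_mod_cast card_E1_two
    have h4 : ((2:ℕ) : ℝ) ^ (-(19 / 20) : ℝ) ≤ 13 / 25 :=
      rp_le (by norm_num) (by norm_num) (by norm_num)
    have h5 : (((2:ℕ) : ℝ) * ((2:ℕ) : ℝ)) ^ (-(19 / 20) : ℝ) ≤ 27 / 100 :=
      rp_le (by norm_num) (by norm_num) (by norm_num)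
    have h6 : ((E1 2).card : ℝ) * ((2:ℕ) : ℝ) ^ (-(19 / 20) : ℝ) ≤ 4 * (13 / 25) :=
      mul_le_mul hc1 h4 (Real.rpow_nonneg (by norm_num) _) (by norm_num)
    have h7 : ((E2 2).card : ℝ) * (((2:ℕ) : ℝ) * ((2:ℕ) : ℝ)) ^ (-(19 / 20) : ℝ) ≤ 4 * (27 / 100) :=
      mul_le_mul hc2 h5 (Real.rpow_nonneg (by norm_num) _) (by norm_num)
    linarith

theorem sum_Dp_le {p : ℕ} (hp : p.Prime) :
    1 / 4 * ∑ g ∈ Dp p, nz g ^ (-(19 / 20) : ℝ) ≤ 2 := by
  rw [sum_Dp hp]
  have h1 : ∑ g ∈ UU, nz g ^ (-(19 / 20) : ℝ) = 4 := by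
    have : ∀ g ∈ UU, nz g ^ (-(19 / 20) : ℝ) = 1 := fun g hg => by
      rw [nz_unit ((mem_UU g).1 hg), Real.one_rpow]
    rw [sum_congr rfl this, sum_const, card_UU]
    norm_num
  have := sum_Dn_le hp
  rw [h1]
  linarith

end Pool.Agent.N521.GN
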