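import Pool.Agent.N521.GN.Mt2c

/-!
# GN/MT2, part 4: averages
-/

set_option autoImplicit false

namespace Pool.Agent.N521.GN

open Finset
open Pool.Agent.N782.GN
open Pool.Agent.H304R3.HK (UH bb LamK)

theorem card_Icc_le {L : ℝ} (hL : 0 ≤ L) : ((Icc (1 : ℤ) ⌊L⌋).card : ℝ) ≤ L := by
  have h1 : ((Icc (1 : ℤ) ⌊L⌋).card : ℤ) = ⌊L⌋ := by
    rw [Int.card_Icc, Int.toNat_of_nonneg]
    · ring
    · have := Int.floor_nonneg.2 hL
      linarith
  have h2 : ((Icc (1 : ℤ) ⌊L⌋).card : ℝ) = ((⌊L⌋ : ℤ) : ℝ) := by exact_mod_cast h1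
  rw [h2]
  exact Int.floor_le L

theorem bl_mono {x y : ℝ} (h : x ≤ y) : bl x ⊆ bl y := by
  intro z hz
  rw [mem_bl] at hz ⊢
  exact ⟨hz.1, hz.2.trans h⟩

theorem bl_empty {x : ℝ} (h : x < 1) : bl x = ∅ := by
  ext z
  rw [mem_bl]
  constructor
  · rintro ⟨h1, h2⟩
    have := nz_pos h1
    linarith
  · intro h
    simp at h

theorem term_le (l : ℤ) {b : ZI} (hb : b ≠ 0) : |mu b * (kap l b / nz b)| ≤ 1 := by
  have h1 := nz_pos hb
  have h2 : 0 ≤ kap l b / nz b := div_nonneg (kap_nonneg _ _) (nz_nonneg _)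
  have h3 : kap l b / nz b ≤ 1 := by
    rw [div_le_one (by linarith)]
    exact kap_le l hb
  rw [abs_mul, abs_of_nonneg h2]
  exact mul_le_one₀ (abs_mu_le b) h2 h3

theorem FF_avg (h1 : S_MT1) (A : ℕ) : ∃ Φ : ℝ, 0 < Φ ∧ ∀ x : ℝ, 0 ≤ x → ∀ L : ℝ, 0 ≤ L →
    ∑ l ∈ Icc (1 : ℤ) ⌊L⌋, |FF l x| ≤ Φ * om A x * L := by
  obtain ⟨C, hC0, hC⟩ := h1 A
  obtain ⟨B, hB⟩ : ∃ B, B = Real.exp (20 * ((A : ℝ) + 1)) := ⟨_, rfl⟩
  have hB0 : 0 < B := by rw [hB]; exact Real.exp_pos _
  obtain ⟨T, hT⟩ : ∃ T, T = Real.log (1 + B) := ⟨_, rfl⟩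
  have hT0 : 0 < T := by rw [hT]; exact Real.log_pos (by linarith)
  obtain ⟨c, hc⟩ : ∃ c : ℝ, c = ((bl 3).card : ℝ) := ⟨_, rfl⟩
  have hc0 : 0 ≤ c := by rw [hc]; positivity
  refine ⟨C * (1 + T) ^ A + c * (Real.log (3 + B)) ^ A + 1, ?_, ?_⟩
  · have : 0 ≤ Real.log (3 + B) := Real.log_nonneg (by linarith)
    positivity
  intro x hx L hL
  have hom := om_pos (A := A) hx
  have hlog3B : 0 ≤ Real.log (3 + B) := Real.log_nonneg (by linarith)
  rcases lt_or_ge L 1 with hL1 | hL1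
  · have : Icc (1 : ℤ) ⌊L⌋ = ∅ := by
      apply Icc_eq_empty
      rw [not_le]
      exact Int.floor_lt.2 (by push_cast; exact hL1)
    rw [this, sum_empty]
    positivity
  rcases lt_or_ge x 3 with hx3 | hx3
  · have h2 : ∀ l ∈ Icc (1 : ℤ) ⌊L⌋, |FF l x| ≤ c := by
      intro l _
      unfold FF
      refine (abs_sum_le_sum_abs _ _).trans ?_
      have h3 : ∑ b ∈ bl x, |mu b * (kap l b / nz b)| ≤ ∑ _b ∈ bl x, (1 : ℝ) :=
        sum_le_sum fun b hb => term_le l ((mem_bl _ _).1 hb).1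
      refine h3.trans ?_
      rw [sum_const, nsmul_eq_mul, mul_one, hc]
      exact_mod_cast card_le_card (bl_mono hx3.le)
    have h3 := sum_le_sum h2
    rw [sum_const, nsmul_eq_mul] at h3
    have h4 : 1 ≤ (Real.log (3 + B)) ^ A * om A x := by
      unfold om
      rw [mul_one_div, ← hB]
      have hl := logB (A := A) hx
      rw [← hB] at hl
      have hA : (0:ℝ) ≤ A := by positivity
      rw [one_le_div (by have : 0 < Real.log (x + B) := by linarith
                         positivity)]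
      exact pow_le_pow_left₀ (by linarith) (Real.log_le_log (by positivity) (by linarith)) A
    have h5 := card_Icc_le hL
    calc ∑ l ∈ Icc (1 : ℤ) ⌊L⌋, |FF l x| ≤ ((Icc (1 : ℤ) ⌊L⌋).card : ℝ) * c := h3
      _ ≤ L * c := mul_le_mul_of_nonneg_right h5 hc0
      _ ≤ (c * ((Real.log (3 + B)) ^ A * om A x)) * L := by nlinarith [mul_nonneg hL hc0]
      _ ≤ _ := by
          have : 0 ≤ (C * (1 + T) ^ A + 1) * om A x * L := by positivity
          nlinarith
  · have h2 := (hC L x hL1 hx3).1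
    have hlx : 1 ≤ Real.log x := by
      rw [Real.le_log_iff_exp_le (by linarith)]
      have := Real.exp_one_lt_d9
      linarith
    have h3 : 1 / (Real.log x) ^ A ≤ (1 + T) ^ A * om A x := by
      unfold om
      rw [mul_one_div, ← hB, div_le_div_iff₀ (by positivity), one_mul, ← mul_pow]
      · apply pow_le_pow_left₀ (Real.log_nonneg (by linarith))
        have h4 : Real.log (x + B) ≤ Real.log x + T := by
          rw [hT, ← Real.log_mul (by linarith) (by linarith)]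
          apply Real.log_le_log (by linarith)
          nlinarith
        nlinarith
      · have hl := logB (A := A) hx
        rw [← hB] at hl
        have hA : (0:ℝ) ≤ A := by positivity
        have : 0 < Real.log (x + B) := by linarith
        positivity
    have h4 : ∑ l ∈ Icc (1 : ℤ) ⌊L⌋, |FF l x| ≤ C * L / (Real.log x) ^ A := h2
    calc _ ≤ C * L / (Real.log x) ^ A := h4
      _ = C * L * (1 / (Real.log x) ^ A) := by ring
      _ ≤ C * L * ((1 + T) ^ A * om A x) := mul_le_mul_of_nonneg_left h3 (by positivity)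
      _ ≤ _ := by
          have : 0 ≤ (c * (Real.log (3 + B)) ^ A + 1) * om A x * L := by positivity
          nlinarith

theorem Fc_avg (hm : S_MUB) (h1 : S_MT1) (A : ℕ) : ∃ K : ℝ, 0 < K ∧ ∀ p : ℕ, p.Prime →
    ∀ x : ℝ, 0 ≤ x → ∀ L : ℝ, 0 ≤ L → ∑ l ∈ Icc (1 : ℤ) ⌊L⌋, |Fc p l x| ≤ K * om A x * L := by
  obtain ⟨Φ, hΦ0, hΦ⟩ := FF_avg h1 A
  refine ⟨10 * Φ, by positivity, fun p hp => ?_⟩
  have key : ∀ n : ℕ, ∀ x : ℝ, 0 ≤ x → x < 2 ^ n → ∀ L : ℝ, 0 ≤ L →
      ∑ l ∈ Icc (1 : ℤ) ⌊L⌋, |Fc p l x| ≤ 10 * Φ * om A x * L := by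
    intro n
    induction n with
    | zero =>
      intro x hx hx1 L hL
      rw [pow_zero] at hx1
      have : ∀ l ∈ Icc (1 : ℤ) ⌊L⌋, |Fc p l x| = 0 := by
        intro l _
        have h0 : co p x = ∅ := by
          unfold co
          rw [bl_empty hx1, filter_empty]
        unfold Fc
        rw [h0, sum_empty, abs_zero]
      rw [sum_congr rfl this, sum_const_zero]
      have := om_pos (A := A) hx
      positivity
    | succ n ih =>
      intro x hx hxn L hL
      have hom := om_pos (A := A) hx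
      have h2 : ∑ l ∈ Icc (1 : ℤ) ⌊L⌋, |Fc p l x| ≤ ∑ l ∈ Icc (1 : ℤ) ⌊L⌋, (|FF l x| +
          1 / 4 * ∑ g ∈ Dn p, kap l g / nz g * |Fc p l (x / nz g)|) :=
        sum_le_sum fun l _ => rec_bound hm hp l x
      rw [sum_add_distrib, ← mul_sum, sum_comm] at h2
      have h3 : ∀ g ∈ Dn p, ∑ l ∈ Icc (1 : ℤ) ⌊L⌋, kap l g / nz g * |Fc p l (x / nz g)| ≤
          10 * Φ * om A x * L * nz g ^ (-(19 / 20) : ℝ) := by
        intro g hg
        rw [mem_Dn] at hg
        have hg0 := Dp_ne hp hg.1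
        have hg2 : 2 ≤ nz g := by
          have h4 := nn_pos hg0
          have h5 : nn g ≠ 1 := fun h => hg.2 ((isUnit_iff g).2 h)
          rw [← nn_real]
          exact_mod_cast (by omega : 2 ≤ nn g)
        have hgp : 0 < nz g := by linarith
        have h4 : x / nz g < 2 ^ n := by
          rw [div_lt_iff₀ hgp]
          rw [pow_succ] at hxn
          have : (0:ℝ) < 2 ^ n := by positivity
          nlinarith
        have h5 := scale hp hg0 (Dp_nn hp hg.1) (X := x / nz g) (K := 10 * Φ * om A (x / nz g))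
          (fun L' hL' => ih (x / nz g) (by positivity) h4 L' hL') L hL
        have h6 : ∑ l ∈ Icc (1 : ℤ) ⌊L⌋, kap l g / nz g * |Fc p l (x / nz g)| =
            1 / nz g * ∑ l ∈ Icc (1 : ℤ) ⌊L⌋, kap l g * |Fc p l (x / nz g)| := by
          rw [mul_sum]
          refine sum_congr rfl fun l _ => ?_
          ring
        rw [h6]
        have h7 := om_ratio (A := A) hx (show 1 ≤ nz g by linarith)
        have h8 : nz g ^ (-(19 / 20) : ℝ) = 1 / nz g * nz g ^ (1 / 20 : ℝ) := by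
          rw [one_div, ← Real.rpow_neg_one, ← Real.rpow_add hgp]
          norm_num
        rw [h8]
        calc 1 / nz g * ∑ l ∈ Icc (1 : ℤ) ⌊L⌋, kap l g * |Fc p l (x / nz g)|
            ≤ 1 / nz g * (10 * Φ * om A (x / nz g) * L) :=
              mul_le_mul_of_nonneg_left h5 (by positivity)
          _ ≤ 1 / nz g * (10 * Φ * (nz g ^ (1 / 20 : ℝ) * om A x) * L) := by gcongr
          _ = _ := by ring
      have h4 := sum_le_sum h3
      rw [← mul_sum] at h4
      have h5 := sum_Dn_le hp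
      have h6 := hΦ x hx L hL
      have h7 : 0 ≤ 10 * Φ * om A x * L := by positivity
      calc _ ≤ Φ * om A x * L + 1 / 4 * (10 * Φ * om A x * L *
            ∑ g ∈ Dn p, nz g ^ (-(19 / 20) : ℝ)) := by linarith
        _ = Φ * om A x * L + (10 * Φ * om A x * L) *
            (1 / 4 * ∑ g ∈ Dn p, nz g ^ (-(19 / 20) : ℝ)) := by ring
        _ ≤ Φ * om A x * L + (10 * Φ * om A x * L) * (9 / 10) := by gcongr
        _ = _ := by ring
  intro x hx L hL
  obtain ⟨n, hn⟩ := pow_unbounded_of_one_lt x (by norm_num : (1:ℝ) < 2)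
  exact key n x hx hn L hL

/-! ### the von Mangoldt function -/

theorem LamK_supp {c : ZI} (h : LamK c ≠ 0) : ∃ (p k : ℕ), p.Prime ∧ nn c ∣ p ^ k := by
  unfold LamK at h
  split_ifs at h with h'
  · obtain ⟨π, hπ, k, hk, hass⟩ := h'
    have h1 : π ∣ ((nn π : ℕ) : ZI) := by
      rw [← nn_star_eq]
      exact dvd_mul_right _ _
    have h2 : ((nn π : ℕ) : ZI) = ((nn π).primeFactorsList.map (fun q : ℕ => ((q : ℕ) : ZI))).prod := by
      have hn0 : nn π ≠ 0 := by
        have := nn_pos hπ.ne_zero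
        omega
      conv_lhs => rw [← Nat.prod_primeFactorsList hn0]
      rw [Nat.cast_list_prod]
    rw [h2, hπ.dvd_prod_iff] at h1
    obtain ⟨q, hq, hπq⟩ := h1
    rw [List.mem_map] at hq
    obtain ⟨p, hp, rfl⟩ := hq
    have hpp : p.Prime := Nat.prime_of_mem_primeFactorsList hp
    refine ⟨p, 2 * k, hpp, ?_⟩
    obtain ⟨u, hu⟩ := hass
    have h3 : nn c = nn π ^ k := by
      rw [← hu, nn_mul, nn_pow, (isUnit_iff _).1 u.isUnit, mul_one]
    rw [h3, pow_mul]
    apply pow_dvd_pow_of_dvd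
    obtain ⟨d, hd⟩ := hπq
    have := nn_P p
    rw [hd, nn_mul] at this
    exact ⟨nn d, by rw [sq]; exact this.symm⟩
  · exact absurd rfl h

theorem card_bl_le {w : ℝ} (hw : 1 ≤ w) : ((bl w).card : ℝ) ≤ 9 * w := by
  classical
  obtain ⟨s, hs⟩ : ∃ s : ℕ, s = ⌊Real.sqrt w⌋₊ := ⟨_, rfl⟩
  have h1 : (bl w).card ≤ (2 * s + 1) * (2 * s + 1) := by
    unfold bl
    refine (card_filter_le _ _).trans (card_image_le.trans ?_)
    rw [card_product, ← hs, Int.card_Icc]
    apply le_of_eq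
    have : ((s : ℤ) + 1 - -(s : ℤ)).toNat = 2 * s + 1 := by omega
    rw [this]
  have h2 : (s : ℝ) ≤ Real.sqrt w := by
    rw [hs]
    exact Nat.floor_le (Real.sqrt_nonneg w)
  have h3 : 1 ≤ Real.sqrt w := Real.one_le_sqrt.2 hw
  have h4 : Real.sqrt w * Real.sqrt w = w := Real.mul_self_sqrt (by linarith)
  have h5 : ((bl w).card : ℝ) ≤ (2 * s + 1) * (2 * s + 1) := by exact_mod_cast h1
  have h6 : (2 * (s : ℝ) + 1) ≤ 3 * Real.sqrt w := by linarith
  have h7 : (0:ℝ) ≤ 2 * (s : ℝ) + 1 := by positivity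
  nlinarith

theorem card_bl_ge {X : ℝ} (hX : 1 ≤ X) : X / 8 ≤ ((bl X).card : ℝ) := by
  classical
  rcases lt_or_ge X 8 with h | h
  · have h1 : (1 : ZI) ∈ bl X := by
      rw [mem_bl]
      exact ⟨one_ne_zero, by rw [nz_unit isUnit_one]; exact hX⟩
    have h2 : 1 ≤ (bl X).card := card_pos.2 ⟨1, h1⟩
    have h3 : (1:ℝ) ≤ ((bl X).card : ℝ) := by exact_mod_cast h2
    linarith
  · obtain ⟨s, hs⟩ : ∃ s : ℕ, s = ⌊Real.sqrt (X / 2)⌋₊ := ⟨_, rfl⟩
    have hr0 := Real.sqrt_nonneg (X / 2)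
    have h1 : (s : ℝ) ≤ Real.sqrt (X / 2) := by
      rw [hs]
      exact Nat.floor_le hr0
    have h2 : Real.sqrt (X / 2) < s + 1 := by
      rw [hs]
      exact Nat.lt_floor_add_one _
    have h3 : Real.sqrt (X / 2) * Real.sqrt (X / 2) = X / 2 := Real.mul_self_sqrt (by linarith)
    have h4 : 2 ≤ Real.sqrt (X / 2) := Real.le_sqrt_of_sq_le (by linarith)
    have h5 : s * s ≤ (bl X).card := by
      have hinj : Set.InjOn (fun q : ℕ × ℕ => (⟨(q.1 : ℤ), (q.2 : ℤ)⟩ : ZI))
          ((Icc 1 s ×ˢ Icc 1 s : Finset (ℕ × ℕ)) : Set (ℕ × ℕ)) := by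
        rintro ⟨a, b⟩ _ ⟨a', b'⟩ _ h6
        simp only [Zsqrtd.mk.injEq, Nat.cast_inj] at h6
        exact Prod.ext h6.1 h6.2
      have h6 : (Icc 1 s ×ˢ Icc 1 s : Finset (ℕ × ℕ)).card = s * s := by
        rw [card_product, Nat.card_Icc]
        simp
      rw [← h6, ← card_image_of_injOn hinj]
      apply card_le_card
      intro z hz
      rw [mem_image] at hz
      obtain ⟨⟨a, b⟩, hab, rfl⟩ := hz
      rw [mem_product, mem_Icc, mem_Icc] at hab
      obtain ⟨⟨ha1, ha2⟩, hb1, hb2⟩ := hab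
      simp only at ha1 ha2 hb1 hb2
      rw [mem_bl]
      constructor
      · intro h7
        have := congrArg Zsqrtd.re h7
        simp only [Zsqrtd.re_zero] at this
        omega
      · rw [nz_eq]
        simp only [Int.cast_natCast]
        have ha3 : (a : ℝ) ≤ s := by exact_mod_cast ha2
        have hb3 : (b : ℝ) ≤ s := by exact_mod_cast hb2
        have ha0 : (0:ℝ) ≤ a := by positivity
        have hb0 : (0:ℝ) ≤ b := by positivity
        nlinarith
    have h6 : (s : ℝ) * s ≤ ((bl X).card : ℝ) := by exact_mod_cast h5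
    have h7 : Real.sqrt (X / 2) / 2 ≤ s := by linarith
    nlinarith

theorem mertens (hm : S_MUB) {w : ℝ} (hw : 1 ≤ w) :
    ∑ c ∈ bl w, LamK c / nz c ≤ 288 * Real.log w := by
  classical
  have hw0 : 0 < w := by linarith
  have hlw : 0 ≤ Real.log w := Real.log_nonneg hw
  have h5 := hm.2.2.2.2.1
  have h6 := hm.2.2.2.2.2
  have h1 : ∑ z ∈ bl w, ∑ c ∈ (bl (nz z)).filter (fun c => c ∣ z), LamK c ≤
      4 * Real.log w * (9 * w) := by
    calc _ = ∑ z ∈ bl w, 4 * Real.log (nz z) :=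
          sum_congr rfl fun z hz => h5 z ((mem_bl _ _).1 hz).1
      _ ≤ ∑ _z ∈ bl w, 4 * Real.log w := by
          refine sum_le_sum fun z hz => ?_
          rw [mem_bl] at hz
          have := Real.log_le_log (by have := nz_pos hz.1; linarith) hz.2
          linarith
      _ = ((bl w).card : ℝ) * (4 * Real.log w) := by rw [sum_const, nsmul_eq_mul]
      _ ≤ (9 * w) * (4 * Real.log w) := mul_le_mul_of_nonneg_right (card_bl_le hw) (by positivity)
      _ = _ := by ring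
  have h2 : ∑ z ∈ bl w, ∑ c ∈ (bl (nz z)).filter (fun c => c ∣ z), LamK c =
      ∑ c ∈ bl w, ∑ z ∈ (bl w).filter (fun z => c ∣ z), LamK c := by
    refine sum_comm' ?_
    intro z c
    rw [mem_filter, mem_filter, mem_bl, mem_bl, mem_bl]
    constructor
    · rintro ⟨⟨hz, hzw⟩, ⟨hc, hcz⟩, hd⟩
      exact ⟨⟨⟨hz, hzw⟩, hd⟩, hc, hcz.trans hzw⟩
    · rintro ⟨⟨⟨hz, hzw⟩, hd⟩, hc, hcw⟩
      refine ⟨⟨hz, hzw⟩, ⟨hc, ?_⟩, hd⟩
      obtain ⟨e, he⟩ := hd
      have he0 : e ≠ 0 := by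
        rintro rfl
        exact hz (by rw [he, mul_zero])
      rw [he, nz_mul]
      have := nz_pos he0
      have := nz_nonneg c
      nlinarith
  rw [h2] at h1
  have h3 : ∀ c ∈ bl w, LamK c * (w / nz c / 8) ≤
      ∑ z ∈ (bl w).filter (fun z => c ∣ z), LamK c := by
    intro c hc
    rw [mem_bl] at hc
    rw [sum_const, nsmul_eq_mul, mul_comm]
    refine mul_le_mul_of_nonneg_right ?_ (h6 c).1
    have hc1 := nz_pos hc.1
    have hX : 1 ≤ w / nz c := by rw [one_le_div (by linarith)]; exact hc.2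
    refine (card_bl_ge hX).trans ?_
    have hinj : Set.InjOn (fun t : ZI => c * t) ((bl (w / nz c) : Finset ZI) : Set ZI) :=
      fun a _ b _ h => mul_left_cancel₀ hc.1 h
    rw [← card_image_of_injOn hinj]
    have : (bl (w / nz c)).image (fun t : ZI => c * t) ⊆ (bl w).filter (fun z => c ∣ z) := by
      intro z hz
      rw [mem_image] at hz
      obtain ⟨t, ht, rfl⟩ := hz
      rw [mem_bl, le_div_iff₀ (by linarith)] at ht
      rw [mem_filter, mem_bl, nz_mul]
      exact ⟨⟨mul_ne_zero hc.1 ht.1, by linarith⟩, dvd_mul_right _ _⟩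
    exact_mod_cast card_le_card this
  have h4 := (sum_le_sum h3).trans h1
  have e1 : ∑ c ∈ bl w, LamK c * (w / nz c / 8) = w / 8 * ∑ c ∈ bl w, LamK c / nz c := by
    rw [mul_sum]
    refine sum_congr rfl fun c _ => ?_
    ring
  rw [e1] at h4
  have h7 : w / 8 * ∑ c ∈ bl w, LamK c / nz c ≤ w / 8 * (288 * Real.log w) := by linarith
  exact le_of_mul_le_mul_left h7 (by positivity)

/-! ### the theorem -/

theorem mt2 (hm : S_MUB) (h1 : S_MT1) : S_MT2 := by
  intro A
  obtain ⟨K, hK0, hK⟩ := Fc_avg hm h1 A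
  refine ⟨2 * K * 288, by positivity, fun L y w hL hy hw => ?_⟩
  have hL0 : 0 ≤ L := by linarith
  have hy0 : 0 ≤ y := by linarith
  have hom := om_pos (A := A) hy0
  -- one `c`
  have hc : ∀ c ∈ bl w, ∑ l ∈ Icc (1 : ℤ) ⌊L⌋,
      |∑ b ∈ bl y, mu b * LamK c * (kap l (b * c) / nz (b * c))| ≤
      (2 * K * om A y * L) * (LamK c / nz c) := by
    intro c hc
    rw [mem_bl] at hc
    have hc1 := nz_pos hc.1
    have hc0 : 0 < nz c := by linarith
    by_cases hLam : LamK c = 0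
    · rw [hLam]
      simp
    obtain ⟨p, k, hp, hpk⟩ := LamK_supp hLam
    have hLam0 := (hm.2.2.2.2.2 c).1
    have e1 : ∀ l : ℤ, |∑ b ∈ bl y, mu b * LamK c * (kap l (b * c) / nz (b * c))| ≤
        LamK c * (1 / 4 * ∑ g ∈ Dp p, kap l (g * c) / nz (g * c) * |Fc p l (y / nz g)|) := by
      intro l
      have h2 : ∑ b ∈ bl y, mu b * LamK c * (kap l (b * c) / nz (b * c)) =
          LamK c * ∑ b ∈ bl y, mu b * (kap l (b * c) / nz (b * c)) := by
        rw [mul_sum]
        refine sum_congr rfl fun b _ => ?_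
        ring
      rw [h2, abs_mul, abs_of_nonneg hLam0, dec_kap hm hp hpk, abs_mul,
        abs_of_pos (by norm_num : (0:ℝ) < 1 / 4)]
      gcongr
      refine (abs_sum_le_sum_abs _ _).trans (sum_le_sum fun g _ => ?_)
      rw [abs_mul, abs_mul]
      have h5 : 0 ≤ kap l (g * c) / nz (g * c) := div_nonneg (kap_nonneg _ _) (nz_nonneg _)
      rw [abs_of_nonneg h5]
      calc |mu g| * (kap l (g * c) / nz (g * c)) * |Fc p l (y / nz g)|
          ≤ 1 * (kap l (g * c) / nz (g * c)) * |Fc p l (y / nz g)| := by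
            gcongr
            exact abs_mu_le g
        _ = _ := by ring
    refine (sum_le_sum fun l _ => e1 l).trans ?_
    rw [← mul_sum, ← mul_sum, sum_comm]
    have h3 : ∀ g ∈ Dp p, ∑ l ∈ Icc (1 : ℤ) ⌊L⌋,
        kap l (g * c) / nz (g * c) * |Fc p l (y / nz g)| ≤
        K * om A y * L / nz c * nz g ^ (-(19 / 20) : ℝ) := by
      intro g hg
      have hg0 := Dp_ne hp hg
      have hg1 := nz_pos hg0
      have hgp : 0 < nz g := by linarith
      have hgc : nn (g * c) ∣ p ^ (2 + k) := by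
        rw [nn_mul, pow_add]
        exact mul_dvd_mul (Dp_nn hp hg) hpk
      have h5 := scale hp (mul_ne_zero hg0 hc.1) hgc (X := y / nz g)
        (K := K * om A (y / nz g)) (fun L' hL' => hK p hp (y / nz g) (by positivity) L' hL') L hL0
      have h6 : ∑ l ∈ Icc (1 : ℤ) ⌊L⌋, kap l (g * c) / nz (g * c) * |Fc p l (y / nz g)| =
          1 / nz g * (1 / nz c) * ∑ l ∈ Icc (1 : ℤ) ⌊L⌋, kap l (g * c) * |Fc p l (y / nz g)| := by
        rw [mul_sum, nz_mul]
        refine sum_congr rfl fun l _ => ?_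
        field_simp
      rw [h6]
      have h7 := om_ratio (A := A) hy0 hg1
      have h8 : nz g ^ (-(19 / 20) : ℝ) = 1 / nz g * nz g ^ (1 / 20 : ℝ) := by
        rw [one_div, ← Real.rpow_neg_one, ← Real.rpow_add hgp]
        norm_num
      rw [h8]
      calc 1 / nz g * (1 / nz c) * ∑ l ∈ Icc (1 : ℤ) ⌊L⌋, kap l (g * c) * |Fc p l (y / nz g)|
          ≤ 1 / nz g * (1 / nz c) * (K * om A (y / nz g) * L) :=
            mul_le_mul_of_nonneg_left h5 (by positivity)
        _ ≤ 1 / nz g * (1 / nz c) * (K * (nz g ^ (1 / 20 : ℝ) * om A y) * L) := by gcongr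
        _ = _ := by ring
    have h4 := sum_le_sum h3
    rw [← mul_sum] at h4
    have h5 := sum_Dp_le hp
    have h7 : 0 ≤ K * om A y * L / nz c := by positivity
    calc _ ≤ LamK c * (1 / 4 * (K * om A y * L / nz c * ∑ g ∈ Dp p, nz g ^ (-(19 / 20) : ℝ))) := by
          gcongr
      _ = LamK c * ((K * om A y * L / nz c) * (1 / 4 * ∑ g ∈ Dp p, nz g ^ (-(19 / 20) : ℝ))) := by
          ring
      _ ≤ LamK c * ((K * om A y * L / nz c) * 2) := by gcongr
      _ = _ := by ring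
  have h2 : ∀ l ∈ Icc (1 : ℤ) ⌊L⌋,
      |∑ b ∈ bl y, ∑ c ∈ bl w, mu b * LamK c * (kap l (b * c) / nz (b * c))| ≤
      ∑ c ∈ bl w, |∑ b ∈ bl y, mu b * LamK c * (kap l (b * c) / nz (b * c))| := by
    intro l _
    rw [sum_comm]
    exact abs_sum_le_sum_abs _ _
  have h3 := sum_le_sum h2
  rw [sum_comm] at h3
  have h4 := h3.trans (sum_le_sum hc)
  rw [← mul_sum] at h4
  have h5 := mertens hm (show 1 ≤ w by linarith)
  have hlw : 0 ≤ Real.log w := Real.log_nonneg (by linarith)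
  have h6 : om A y ≤ 1 / (Real.log y) ^ A := by
    unfold om
    have hly : 0 < Real.log y := Real.log_pos (by linarith)
    apply one_div_le_one_div_of_le (by positivity)
    apply pow_le_pow_left₀ hly.le
    apply Real.log_le_log (by linarith)
    have := Real.exp_pos (20 * ((A : ℝ) + 1))
    linarith
  calc _ ≤ 2 * K * om A y * L * ∑ c ∈ bl w, LamK c / nz c := h4
    _ ≤ 2 * K * om A y * L * (288 * Real.log w) := by gcongr
    _ ≤ 2 * K * (1 / (Real.log y) ^ A) * L * (288 * Real.log w) := by gcongr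
    _ = _ := by ring

end Pool.Agent.N521.GN
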