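import Pool.Agent.N521.GN.Mt2d
import Pool.Agent.N782.GN.StmX

/-!
# GN/XMT2: the sums with `Λ`, coprime to `q₀`
-/

set_option autoImplicit false

namespace Pool.Agent.N521.GN

open Finset
open Pool.Agent.N782.GN
open Pool.Agent.H304R3.HK (UH bb LamK)

open Classical in
/-- the indicator of the numbers coprime to `q₀` -/
noncomputable def ind (q0 : ℕ) (b : ZI) : ℝ := if IsCoprime b ((q0 : ℕ) : ZI) then 1 else 0

theorem ind_nonneg (q0 : ℕ) (b : ZI) : 0 ≤ ind q0 b := by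
  unfold ind
  split_ifs <;> norm_num

theorem ind_le (q0 : ℕ) (b : ZI) : ind q0 b ≤ 1 := by
  unfold ind
  split_ifs <;> norm_num

/-- sums of the densities -/
noncomputable def FFx (q0 : ℕ) (l : ℤ) (x : ℝ) : ℝ :=
  ∑ b ∈ bl x, mu b * (ind q0 b * (kap l b / nz b))

/-- the same over numbers coprime to `p` -/
noncomputable def Fcx (q0 p : ℕ) (l : ℤ) (x : ℝ) : ℝ :=
  ∑ b ∈ co p x, mu b * (ind q0 b * (kap l b / nz b))

theorem ind_mul {q0 p : ℕ} (hp : p.Prime) (hq : ¬ p ∣ q0) {g : ZI} (hg : g ∈ Dp p) (b : ZI) :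
    ind q0 (g * b) = ind q0 b := by
  have h1 : IsCoprime ((p : ℕ) : ℤ) ((q0 : ℕ) : ℤ) :=
    Nat.isCoprime_iff_coprime.2 ((hp.coprime_iff_not_dvd).2 hq)
  have h2 : IsCoprime ((p : ℕ) : ZI) ((q0 : ℕ) : ZI) := by
    have := h1.map (Int.castRingHom ZI)
    simpa using this
  have h3 : IsCoprime g ((q0 : ℕ) : ZI) := h2.of_isCoprime_of_dvd_left ((mem_Dp hp g).1 hg)
  have h4 : IsCoprime (g * b) ((q0 : ℕ) : ZI) ↔ IsCoprime b ((q0 : ℕ) : ZI) :=
    ⟨fun h => h.of_mul_left_right, fun h => h3.mul_left h⟩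
  unfold ind
  by_cases h : IsCoprime b ((q0 : ℕ) : ZI)
  · rw [if_pos h, if_pos (h4.2 h)]
  · rw [if_neg h, if_neg (fun h' => h (h4.1 h'))]

theorem dec_kapx (hm : S_MUB) {q0 p : ℕ} (hp : p.Prime) (hq : ¬ p ∣ q0) {a : ZI} {k : ℕ} (ha : nn a ∣ p ^ k) (l : ℤ)
    (x : ℝ) : ∑ b ∈ bl x, mu b * (ind q0 b * (kap l (b * a) / nz (b * a))) =
      1 / 4 * ∑ g ∈ Dp p, mu g * (kap l (g * a) / nz (g * a)) * Fcx q0 p l (x / nz g) := by
  rw [dec hm hp (fun b => ind q0 b * (kap l (b * a) / nz (b * a))) x]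
  congr 1
  refine sum_congr rfl fun g hg => ?_
  rw [mul_assoc]
  congr 1
  unfold Fcx
  rw [mul_sum]
  refine sum_congr rfl fun b hb => ?_
  rw [mem_co] at hb
  have h1 : nn (g * a) ∣ p ^ (2 + k) := by
    rw [nn_mul, pow_add]
    exact mul_dvd_mul (Dp_nn hp hg) ha
  have h2 : g * b * a = (g * a) * b := by ring
  rw [h2, kap_mul (cop_of_pow hp h1 hb.2), nz_mul, mul_div_mul_comm, ind_mul hp hq hg]
  ring

theorem rec_boundx (hm : S_MUB) {q0 p : ℕ} (hp : p.Prime) (hq : ¬ p ∣ q0) (l : ℤ) (x : ℝ) :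
    |Fcx q0 p l x| ≤ |FFx q0 l x| + 1 / 4 * ∑ g ∈ Dn p, kap l g / nz g * |Fcx q0 p l (x / nz g)| := by
  have h1 := dec_kapx hm hp hq (a := 1) (k := 0)
    (by rw [show nn 1 = 1 by decide]; exact one_dvd _) l x
  simp only [mul_one] at h1
  rw [sum_Dp hp] at h1
  have h2 : ∑ g ∈ UU, mu g * (kap l g / nz g) * Fcx q0 p l (x / nz g) = 4 * Fcx q0 p l x := by
    have : ∀ g ∈ UU, mu g * (kap l g / nz g) * Fcx q0 p l (x / nz g) = Fcx q0 p l x := by
      intro g hg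
      rw [mem_UU] at hg
      have h3 : mu g = 1 := by
        have := hm.2.2.1 g 1 hg
        rwa [mul_one, mu_one] at this
      rw [h3, kap_unit hg, nz_unit hg]
      simp
    rw [sum_congr rfl this, sum_const, card_UU]
    simp
  rw [h2] at h1
  have h3 : Fcx q0 p l x = FFx q0 l x -
      1 / 4 * ∑ g ∈ Dn p, mu g * (kap l g / nz g) * Fcx q0 p l (x / nz g) := by
    unfold FFx
    rw [h1]
    ring
  rw [h3]
  refine (abs_sub _ _).trans ?_
  gcongr
  rw [abs_mul, abs_of_pos (by norm_num : (0:ℝ) < 1 / 4)]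
  gcongr
  refine (abs_sum_le_sum_abs _ _).trans (sum_le_sum fun g hg => ?_)
  rw [abs_mul, abs_mul]
  have h4 : |kap l g / nz g| = kap l g / nz g :=
    abs_of_nonneg (div_nonneg (kap_nonneg _ _) (nz_nonneg _))
  rw [h4]
  have h5 : 0 ≤ kap l g / nz g := div_nonneg (kap_nonneg _ _) (nz_nonneg _)
  calc |mu g| * (kap l g / nz g) * |Fcx q0 p l (x / nz g)|
      ≤ 1 * (kap l g / nz g) * |Fcx q0 p l (x / nz g)| := by
        gcongr
        exact abs_mu_le g
    _ = _ := by ring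

theorem Fcx_scale {q0 p : ℕ} (hp : p.Prime) {a : ZI} {k : ℕ} (hk : nn a ∣ p ^ k) (l : ℤ) (X : ℝ) :
    Fcx q0 p ((ct a : ℕ) * l) X = Fcx q0 p l X := by
  unfold Fcx
  refine sum_congr rfl fun b hb => ?_
  rw [mem_co] at hb
  have h1 : Nat.Coprime (ct a) (ct b) :=
    Nat.Coprime.coprime_dvd_left (ct_dvd_nn a)
      (Nat.Coprime.coprime_dvd_right (ct_dvd_nn b) (cop_of_pow hp hk hb.2))
  have h2 : IsCoprime ((ct b : ℕ) : ℤ) ((ct a : ℕ) : ℤ) := Nat.isCoprime_iff_coprime.2 h1.symm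
  have h3 : (((ct b : ℕ) : ℤ) ∣ (ct a : ℕ) * l) ↔ ((ct b : ℕ) : ℤ) ∣ l :=
    ⟨fun h => h2.dvd_of_dvd_mul_left h, fun h => h.trans (dvd_mul_left _ _)⟩
  unfold kap
  simp only [h3]

theorem scalex {q0 p : ℕ} (hp : p.Prime) {a : ZI} (ha : a ≠ 0) {k : ℕ} (hk : nn a ∣ p ^ k) {X K : ℝ}
    (h : ∀ L : ℝ, 0 ≤ L → ∑ l ∈ Icc (1 : ℤ) ⌊L⌋, |Fcx q0 p l X| ≤ K * L) (L : ℝ)
    (hL : 0 ≤ L) : ∑ l ∈ Icc (1 : ℤ) ⌊L⌋, kap l a * |Fcx q0 p l X| ≤ K * L := by
  have hd : 1 ≤ ct a := ct_pos ha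
  have hd0 : (0:ℝ) < ct a := by exact_mod_cast hd
  have h1 : ∑ l ∈ Icc (1 : ℤ) ⌊L⌋, kap l a * |Fcx q0 p l X| =
      ∑ l ∈ (Icc (1 : ℤ) ⌊L⌋).filter (fun l => ((ct a : ℕ) : ℤ) ∣ l), (ct a : ℝ) * |Fcx q0 p l X| := by
    rw [sum_filter]
    refine sum_congr rfl fun l _ => ?_
    unfold kap
    split_ifs <;> simp
  rw [h1]
  have hinj : Set.InjOn (fun l : ℤ => ((ct a : ℕ) : ℤ) * l) (Icc (1 : ℤ) ⌊L / ct a⌋ : Finset ℤ) := by
    intro u _ v _ huv
    exact mul_left_cancel₀ (by exact_mod_cast (show ct a ≠ 0 by omega)) huv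
  have h2 : (Icc (1 : ℤ) ⌊L⌋).filter (fun l => ((ct a : ℕ) : ℤ) ∣ l) ⊆
      (Icc (1 : ℤ) ⌊L / ct a⌋).image (fun l : ℤ => ((ct a : ℕ) : ℤ) * l) := by
    intro l hl
    rw [mem_filter, mem_Icc] at hl
    obtain ⟨⟨h3, h4⟩, m, rfl⟩ := hl
    rw [mem_image]
    refine ⟨m, ?_, rfl⟩
    have hda : (0:ℤ) < (ct a : ℕ) := by exact_mod_cast hd
    rw [mem_Icc]
    constructor
    · by_contra hc
      push Not at hc
      have : m ≤ 0 := by omega
      nlinarith
    · rw [Int.le_floor, le_div_iff₀ hd0]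
      have h5 := Int.le_floor.1 h4
      push_cast at h5
      linarith
  calc _ ≤ ∑ l ∈ (Icc (1 : ℤ) ⌊L / ct a⌋).image (fun l : ℤ => ((ct a : ℕ) : ℤ) * l),
        (ct a : ℝ) * |Fcx q0 p l X| :=
        sum_le_sum_of_subset_of_nonneg h2 fun _ _ _ => by positivity
    _ = ∑ l ∈ Icc (1 : ℤ) ⌊L / ct a⌋, (ct a : ℝ) * |Fcx q0 p l X| := by
        rw [sum_image hinj]
        refine sum_congr rfl fun l _ => ?_
        rw [Fcx_scale hp hk]
    _ = (ct a : ℝ) * ∑ l ∈ Icc (1 : ℤ) ⌊L / ct a⌋, |Fcx q0 p l X| := by rw [mul_sum]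
    _ ≤ (ct a : ℝ) * (K * (L / ct a)) :=
        mul_le_mul_of_nonneg_left (h _ (by positivity)) hd0.le
    _ = K * L := by field_simp

theorem term_lex (q0 : ℕ) (l : ℤ) {b : ZI} (hb : b ≠ 0) :
    |mu b * (ind q0 b * (kap l b / nz b))| ≤ 1 := by
  have h1 := term_le l hb
  have e : mu b * (ind q0 b * (kap l b / nz b)) = ind q0 b * (mu b * (kap l b / nz b)) := by ring
  rw [e, abs_mul, abs_of_nonneg (ind_nonneg q0 b)]
  exact mul_le_one₀ (ind_le q0 b) (abs_nonneg _) h1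

open Classical in
theorem FFx_eq (q0 : ℕ) (l : ℤ) (x : ℝ) : FFx q0 l x =
    ∑ b ∈ (bl x).filter (fun b => IsCoprime b ((q0 : ℕ) : ZI)), mu b * (kap l b / nz b) := by
  unfold FFx
  rw [sum_filter]
  refine sum_congr rfl fun b _ => ?_
  unfold ind
  split_ifs <;> simp

theorem FFx_avg (h1 : S_MT1X) (A q0 : ℕ) (hq0 : 1 ≤ q0) : ∃ Φ : ℝ, 0 < Φ ∧ ∀ x : ℝ, 0 ≤ x → ∀ L : ℝ, 0 ≤ L →
    ∑ l ∈ Icc (1 : ℤ) ⌊L⌋, |FFx q0 l x| ≤ Φ * om A x * L := by
  obtain ⟨C, hC0, hC⟩ := h1 A q0 hq0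
  obtain ⟨B, hB⟩ : ∃ B, B = Real.exp (20 * ((A : ℝ) + 1)) := ⟨_, rfl⟩
  have hB0 : 0 < B := by rw [hB]; exact Real.exp_pos _
  obtain ⟨T, hT⟩ : ∃ T, T = Real.log (1 + B) := ⟨_, rfl⟩
  have hT0 : 0 < T := by rw [hT]; exact Real.log_pos (by linarith)
  obtain ⟨c, hc⟩ : ∃ c : ℝ, c = ((bl 3).card : ℝ) := ⟨_, rfl⟩
  have hc0 : 0 ≤ c := by rw [hc]; positivity
  refine ⟨C * (1 + T) ^ A + c * (Real.log (3 + B)) ^ A + 1, ?_, ?_⟩
  · have : 0 ≤ Real.log (3 + B) := Real.log_nonneg (by linarith)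
    positivity
  intro x hx L hL
  have hom := om_pos (A := A) hx
  have hlog3B : 0 ≤ Real.log (3 + B) := Real.log_nonneg (by linarith)
  rcases lt_or_ge L 1 with hL1 | hL1
  · have : Icc (1 : ℤ) ⌊L⌋ = ∅ := by
      apply Icc_eq_empty
      rw [not_le]
      exact Int.floor_lt.2 (by push_cast; exact hL1)
    rw [this, sum_empty]
    positivity
  rcases lt_or_ge x 3 with hx3 | hx3
  · have h2 : ∀ l ∈ Icc (1 : ℤ) ⌊L⌋, |FFx q0 l x| ≤ c := by
      intro l _
      unfold FFx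
      refine (abs_sum_le_sum_abs _ _).trans ?_
      have h3 : ∑ b ∈ bl x, |mu b * (ind q0 b * (kap l b / nz b))| ≤ ∑ _b ∈ bl x, (1 : ℝ) :=
        sum_le_sum fun b hb => term_lex q0 l ((mem_bl _ _).1 hb).1
      refine h3.trans ?_
      rw [sum_const, nsmul_eq_mul, mul_one, hc]
      exact_mod_cast card_le_card (bl_mono hx3.le)
    have h3 := sum_le_sum h2
    rw [sum_const, nsmul_eq_mul] at h3
    have h4 : 1 ≤ (Real.log (3 + B)) ^ A * om A x := by
      unfold om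
      rw [mul_one_div, ← hB]
      have hl := logB (A := A) hx
      rw [← hB] at hl
      have hA : (0:ℝ) ≤ A := by positivity
      rw [one_le_div (by have : 0 < Real.log (x + B) := by linarith
                         positivity)]
      exact pow_le_pow_left₀ (by linarith) (Real.log_le_log (by positivity) (by linarith)) A
    have h5 := card_Icc_le hL
    calc ∑ l ∈ Icc (1 : ℤ) ⌊L⌋, |FFx q0 l x| ≤ ((Icc (1 : ℤ) ⌊L⌋).card : ℝ) * c := h3
      _ ≤ L * c := mul_le_mul_of_nonneg_right h5 hc0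
      _ ≤ (c * ((Real.log (3 + B)) ^ A * om A x)) * L := by nlinarith [mul_nonneg hL hc0]
      _ ≤ _ := by
          have : 0 ≤ (C * (1 + T) ^ A + 1) * om A x * L := by positivity
          nlinarith
  · have h2 := (hC L x hL1 hx3).1
    have hlx : 1 ≤ Real.log x := by
      rw [Real.le_log_iff_exp_le (by linarith)]
      have := Real.exp_one_lt_d9
      linarith
    have h3 : 1 / (Real.log x) ^ A ≤ (1 + T) ^ A * om A x := by
      unfold om
      rw [mul_one_div, ← hB, div_le_div_iff₀ (by positivity), one_mul, ← mul_pow]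
      · apply pow_le_pow_left₀ (Real.log_nonneg (by linarith))
        have h4 : Real.log (x + B) ≤ Real.log x + T := by
          rw [hT, ← Real.log_mul (by linarith) (by linarith)]
          apply Real.log_le_log (by linarith)
          nlinarith
        nlinarith
      · have hl := logB (A := A) hx
        rw [← hB] at hl
        have hA : (0:ℝ) ≤ A := by positivity
        have : 0 < Real.log (x + B) := by linarith
        positivity
    have h4 : ∑ l ∈ Icc (1 : ℤ) ⌊L⌋, |FFx q0 l x| ≤ C * L / (Real.log x) ^ A := by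
      simp only [FFx_eq]
      exact h2
    calc _ ≤ C * L / (Real.log x) ^ A := h4
      _ = C * L * (1 / (Real.log x) ^ A) := by ring
      _ ≤ C * L * ((1 + T) ^ A * om A x) := mul_le_mul_of_nonneg_left h3 (by positivity)
      _ ≤ _ := by
          have : 0 ≤ (c * (Real.log (3 + B)) ^ A + 1) * om A x * L := by positivity
          nlinarith

theorem Fcx_avg (hm : S_MUB) (h1 : S_MT1X) (A q0 : ℕ) (hq0 : 1 ≤ q0) : ∃ K : ℝ, 0 < K ∧
    ∀ p : ℕ, p.Prime → ¬ p ∣ q0 →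
    ∀ x : ℝ, 0 ≤ x → ∀ L : ℝ, 0 ≤ L → ∑ l ∈ Icc (1 : ℤ) ⌊L⌋, |Fcx q0 p l x| ≤ K * om A x * L := by
  obtain ⟨Φ, hΦ0, hΦ⟩ := FFx_avg h1 A q0 hq0
  refine ⟨10 * Φ, by positivity, fun p hp hq => ?_⟩
  have key : ∀ n : ℕ, ∀ x : ℝ, 0 ≤ x → x < 2 ^ n → ∀ L : ℝ, 0 ≤ L →
      ∑ l ∈ Icc (1 : ℤ) ⌊L⌋, |Fcx q0 p l x| ≤ 10 * Φ * om A x * L := by
    intro n
    induction n with
    | zero =>
      intro x hx hx1 L hL
      rw [pow_zero] at hx1
      have : ∀ l ∈ Icc (1 : ℤ) ⌊L⌋, |Fcx q0 p l x| = 0 := by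
        intro l _
        have h0 : co p x = ∅ := by
          unfold co
          rw [bl_empty hx1, filter_empty]
        unfold Fcx
        rw [h0, sum_empty, abs_zero]
      rw [sum_congr rfl this, sum_const_zero]
      have := om_pos (A := A) hx
      positivity
    | succ n ih =>
      intro x hx hxn L hL
      have hom := om_pos (A := A) hx
      have h2 : ∑ l ∈ Icc (1 : ℤ) ⌊L⌋, |Fcx q0 p l x| ≤ ∑ l ∈ Icc (1 : ℤ) ⌊L⌋, (|FFx q0 l x| +
          1 / 4 * ∑ g ∈ Dn p, kap l g / nz g * |Fcx q0 p l (x / nz g)|) :=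
        sum_le_sum fun l _ => rec_boundx hm hp hq l x
      rw [sum_add_distrib, ← mul_sum, sum_comm] at h2
      have h3 : ∀ g ∈ Dn p, ∑ l ∈ Icc (1 : ℤ) ⌊L⌋, kap l g / nz g * |Fcx q0 p l (x / nz g)| ≤
          10 * Φ * om A x * L * nz g ^ (-(19 / 20) : ℝ) := by
        intro g hg
        rw [mem_Dn] at hg
        have hg0 := Dp_ne hp hg.1
        have hg2 : 2 ≤ nz g := by
          have h4 := nn_pos hg0
          have h5 : nn g ≠ 1 := fun h => hg.2 ((isUnit_iff g).2 h)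
          rw [← nn_real]
          exact_mod_cast (by omega : 2 ≤ nn g)
        have hgp : 0 < nz g := by linarith
        have h4 : x / nz g < 2 ^ n := by
          rw [div_lt_iff₀ hgp]
          rw [pow_succ] at hxn
          have : (0:ℝ) < 2 ^ n := by positivity
          nlinarith
        have h5 := scalex (q0 := q0) hp hg0 (Dp_nn hp hg.1) (X := x / nz g) (K := 10 * Φ * om A (x / nz g))
          (fun L' hL' => ih (x / nz g) (by positivity) h4 L' hL') L hL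
        have h6 : ∑ l ∈ Icc (1 : ℤ) ⌊L⌋, kap l g / nz g * |Fcx q0 p l (x / nz g)| =
            1 / nz g * ∑ l ∈ Icc (1 : ℤ) ⌊L⌋, kap l g * |Fcx q0 p l (x / nz g)| := by
          rw [mul_sum]
          refine sum_congr rfl fun l _ => ?_
          ring
        rw [h6]
        have h7 := om_ratio (A := A) hx (show 1 ≤ nz g by linarith)
        have h8 : nz g ^ (-(19 / 20) : ℝ) = 1 / nz g * nz g ^ (1 / 20 : ℝ) := by
          rw [one_div, ← Real.rpow_neg_one, ← Real.rpow_add hgp]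
          norm_num
        rw [h8]
        calc 1 / nz g * ∑ l ∈ Icc (1 : ℤ) ⌊L⌋, kap l g * |Fcx q0 p l (x / nz g)|
            ≤ 1 / nz g * (10 * Φ * om A (x / nz g) * L) :=
              mul_le_mul_of_nonneg_left h5 (by positivity)
          _ ≤ 1 / nz g * (10 * Φ * (nz g ^ (1 / 20 : ℝ) * om A x) * L) := by gcongr
          _ = _ := by ring
      have h4 := sum_le_sum h3
      rw [← mul_sum] at h4
      have h5 := sum_Dn_le hp
      have h6 := hΦ x hx L hL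
      have h7 : 0 ≤ 10 * Φ * om A x * L := by positivity
      calc _ ≤ Φ * om A x * L + 1 / 4 * (10 * Φ * om A x * L *
            ∑ g ∈ Dn p, nz g ^ (-(19 / 20) : ℝ)) := by linarith
        _ = Φ * om A x * L + (10 * Φ * om A x * L) *
            (1 / 4 * ∑ g ∈ Dn p, nz g ^ (-(19 / 20) : ℝ)) := by ring
        _ ≤ Φ * om A x * L + (10 * Φ * om A x * L) * (9 / 10) := by gcongr
        _ = _ := by ring
  intro x hx L hL
  obtain ⟨n, hn⟩ := pow_unbounded_of_one_lt x (by norm_num : (1:ℝ) < 2)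
  exact key n x hx hn L hL

theorem LamK_cop {c : ZI} (h : LamK c ≠ 0) {q0 p k : ℕ} (hc : IsCoprime c ((q0 : ℕ) : ZI))
    (hp : p.Prime) (hk : nn c ∣ p ^ k) : ¬ p ∣ q0 := by
  intro hpq
  have hnu : ¬ IsUnit c := by
    unfold LamK at h
    split_ifs at h with h'
    · obtain ⟨π, hπ, j, hj, hass⟩ := h'
      intro hu
      have h1 : IsUnit (π ^ j) := (hass.isUnit_iff).2 hu
      exact hπ.not_isUnit ((isUnit_pow_iff (by omega)).1 h1)
    · exact absurd rfl h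
  obtain ⟨d, hd⟩ := hpq
  have h1 : IsCoprime c ((p : ℕ) : ZI) := by
    refine hc.of_isCoprime_of_dvd_right ⟨((d : ℕ) : ZI), ?_⟩
    rw [hd]
    push_cast
    rfl
  have h2 := co_norm hp h1
  have h3 : Nat.Coprime (p ^ k) (nn c) := Nat.Coprime.pow_left k h2
  have h4 : nn c = 1 := Nat.dvd_one.1 (h3.gcd_eq_one ▸ Nat.dvd_gcd hk dvd_rfl)
  exact hnu ((isUnit_iff c).2 h4)

theorem mt2x (hm : S_MUB) (h1 : S_MT1X) : S_MT2X := by
  classical
  intro A q0 hq0
  obtain ⟨K, hK0, hK⟩ := Fcx_avg hm h1 A q0 hq0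
  refine ⟨2 * K * 288, by positivity, fun L y w hL hy hw => ?_⟩
  have hL0 : 0 ≤ L := by linarith
  have hy0 : 0 ≤ y := by linarith
  have hom := om_pos (A := A) hy0
  -- one `c`
  have hc : ∀ c ∈ (bl w).filter (fun c => IsCoprime c ((q0 : ℕ) : ZI)), ∑ l ∈ Icc (1 : ℤ) ⌊L⌋,
      |∑ b ∈ bl y, mu b * LamK c * (ind q0 b * (kap l (b * c) / nz (b * c)))| ≤
      (2 * K * om A y * L) * (LamK c / nz c) := by
    intro c hc'
    rw [mem_filter, mem_bl] at hc'
    obtain ⟨hc, hcq⟩ := hc'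
    have hc1 := nz_pos hc.1
    have hc0 : 0 < nz c := by linarith
    by_cases hLam : LamK c = 0
    · rw [hLam]
      simp
    obtain ⟨p, k, hp, hpk⟩ := LamK_supp hLam
    have hq : ¬ p ∣ q0 := LamK_cop hLam hcq hp hpk
    have hLam0 := (hm.2.2.2.2.2 c).1
    have e1 : ∀ l : ℤ, |∑ b ∈ bl y, mu b * LamK c * (ind q0 b * (kap l (b * c) / nz (b * c)))| ≤
        LamK c * (1 / 4 * ∑ g ∈ Dp p, kap l (g * c) / nz (g * c) * |Fcx q0 p l (y / nz g)|) := by
      intro l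
      have h2 : ∑ b ∈ bl y, mu b * LamK c * (ind q0 b * (kap l (b * c) / nz (b * c))) =
          LamK c * ∑ b ∈ bl y, mu b * (ind q0 b * (kap l (b * c) / nz (b * c))) := by
        rw [mul_sum]
        refine sum_congr rfl fun b _ => ?_
        ring
      rw [h2, abs_mul, abs_of_nonneg hLam0, dec_kapx hm hp hq hpk, abs_mul,
        abs_of_pos (by norm_num : (0:ℝ) < 1 / 4)]
      gcongr
      refine (abs_sum_le_sum_abs _ _).trans (sum_le_sum fun g _ => ?_)
      rw [abs_mul, abs_mul]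
      have h5 : 0 ≤ kap l (g * c) / nz (g * c) := div_nonneg (kap_nonneg _ _) (nz_nonneg _)
      rw [abs_of_nonneg h5]
      calc |mu g| * (kap l (g * c) / nz (g * c)) * |Fcx q0 p l (y / nz g)|
          ≤ 1 * (kap l (g * c) / nz (g * c)) * |Fcx q0 p l (y / nz g)| := by
            gcongr
            exact abs_mu_le g
        _ = _ := by ring
    refine (sum_le_sum fun l _ => e1 l).trans ?_
    rw [← mul_sum, ← mul_sum, sum_comm]
    have h3 : ∀ g ∈ Dp p, ∑ l ∈ Icc (1 : ℤ) ⌊L⌋,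
        kap l (g * c) / nz (g * c) * |Fcx q0 p l (y / nz g)| ≤
        K * om A y * L / nz c * nz g ^ (-(19 / 20) : ℝ) := by
      intro g hg
      have hg0 := Dp_ne hp hg
      have hg1 := nz_pos hg0
      have hgp : 0 < nz g := by linarith
      have hgc : nn (g * c) ∣ p ^ (2 + k) := by
        rw [nn_mul, pow_add]
        exact mul_dvd_mul (Dp_nn hp hg) hpk
      have h5 := scalex (q0 := q0) hp (mul_ne_zero hg0 hc.1) hgc (X := y / nz g)
        (K := K * om A (y / nz g)) (fun L' hL' => hK p hp hq (y / nz g) (by positivity) L' hL') L hL0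
      have h6 : ∑ l ∈ Icc (1 : ℤ) ⌊L⌋, kap l (g * c) / nz (g * c) * |Fcx q0 p l (y / nz g)| =
          1 / nz g * (1 / nz c) * ∑ l ∈ Icc (1 : ℤ) ⌊L⌋, kap l (g * c) * |Fcx q0 p l (y / nz g)| := by
        rw [mul_sum, nz_mul]
        refine sum_congr rfl fun l _ => ?_
        field_simp
      rw [h6]
      have h7 := om_ratio (A := A) hy0 hg1
      have h8 : nz g ^ (-(19 / 20) : ℝ) = 1 / nz g * nz g ^ (1 / 20 : ℝ) := by
        rw [one_div, ← Real.rpow_neg_one, ← Real.rpow_add hgp]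
        norm_num
      rw [h8]
      calc 1 / nz g * (1 / nz c) * ∑ l ∈ Icc (1 : ℤ) ⌊L⌋, kap l (g * c) * |Fcx q0 p l (y / nz g)|
          ≤ 1 / nz g * (1 / nz c) * (K * om A (y / nz g) * L) :=
            mul_le_mul_of_nonneg_left h5 (by positivity)
        _ ≤ 1 / nz g * (1 / nz c) * (K * (nz g ^ (1 / 20 : ℝ) * om A y) * L) := by gcongr
        _ = _ := by ring
    have h4 := sum_le_sum h3
    rw [← mul_sum] at h4
    have h5 := sum_Dp_le hp
    have h7 : 0 ≤ K * om A y * L / nz c := by positivity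
    calc _ ≤ LamK c * (1 / 4 * (K * om A y * L / nz c * ∑ g ∈ Dp p, nz g ^ (-(19 / 20) : ℝ))) := by
          gcongr
      _ = LamK c * ((K * om A y * L / nz c) * (1 / 4 * ∑ g ∈ Dp p, nz g ^ (-(19 / 20) : ℝ))) := by
          ring
      _ ≤ LamK c * ((K * om A y * L / nz c) * 2) := by gcongr
      _ = _ := by ring
  have h2 : ∀ l ∈ Icc (1 : ℤ) ⌊L⌋,
      |∑ b ∈ (bl y).filter (fun b => IsCoprime b ((q0 : ℕ) : ZI)),
        ∑ c ∈ (bl w).filter (fun c => IsCoprime c ((q0 : ℕ) : ZI)),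
          mu b * LamK c * (kap l (b * c) / nz (b * c))| ≤
      ∑ c ∈ (bl w).filter (fun c => IsCoprime c ((q0 : ℕ) : ZI)),
        |∑ b ∈ bl y, mu b * LamK c * (ind q0 b * (kap l (b * c) / nz (b * c)))| := by
    intro l _
    rw [sum_comm]
    refine (abs_sum_le_sum_abs _ _).trans (sum_le_sum fun c _ => le_of_eq ?_)
    rw [sum_filter]
    congr 1
    refine sum_congr rfl fun b _ => ?_
    unfold ind
    split_ifs <;> simp
  have h3 := sum_le_sum h2
  rw [sum_comm (s := Icc (1 : ℤ) ⌊L⌋) (t := (bl w).filter (fun c => IsCoprime c ((q0 : ℕ) : ZI)))]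
    at h3
  have h4 := h3.trans (sum_le_sum hc)
  rw [← mul_sum] at h4
  have h4' : ∑ c ∈ (bl w).filter (fun c => IsCoprime c ((q0 : ℕ) : ZI)), LamK c / nz c ≤
      ∑ c ∈ bl w, LamK c / nz c :=
    sum_le_sum_of_subset_of_nonneg (filter_subset _ _)
      fun c _ _ => div_nonneg (hm.2.2.2.2.2 c).1 (nz_nonneg c)
  have h5 := mertens hm (show 1 ≤ w by linarith)
  have hlw : 0 ≤ Real.log w := Real.log_nonneg (by linarith)
  have h6 : om A y ≤ 1 / (Real.log y) ^ A := by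
    unfold om
    have hly : 0 < Real.log y := Real.log_pos (by linarith)
    apply one_div_le_one_div_of_le (by positivity)
    apply pow_le_pow_left₀ hly.le
    apply Real.log_le_log (by linarith)
    have := Real.exp_pos (20 * ((A : ℝ) + 1))
    linarith
  calc _ ≤ 2 * K * om A y * L *
        ∑ c ∈ (bl w).filter (fun c => IsCoprime c ((q0 : ℕ) : ZI)), LamK c / nz c := h4
    _ ≤ 2 * K * om A y * L * ∑ c ∈ bl w, LamK c / nz c := by gcongr
    _ ≤ 2 * K * om A y * L * (288 * Real.log w) := by gcongr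
    _ ≤ 2 * K * (1 / (Real.log y) ^ A) * L * (288 * Real.log w) := by gcongr
    _ = _ := by ring

end Pool.Agent.N521.GN
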